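import Mathlib

namespace Pool.Agent.Lib.MP_a33257_co

open Finset

variable {V : Type*} [Fintype V] [DecidableEq V]

/-- Maker, who is to move, can force a win of the `(1:b)` vertex `K_k`-game on `G` from the position
in which Maker has claimed the vertices `M` and Breaker the vertices `B`. -/
def MakerWinsFrom (G : SimpleGraph V) (k b : ℕ) (M B : Finset V) : Prop :=
  (M ∪ B = univ ∧ ∃ K ⊆ M, G.IsNClique k K) ∨
    ∃ v, ∃ _ : v ∉ M ∪ B, ∀ T ⊆ univ \ (insert v M ∪ B),
      T.card = min b (univ \ (insert v M ∪ B)).card →
        MakerWinsFrom G k b (insert v M) (B ∪ T)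
termination_by (univ \ (M ∪ B)).card
decreasing_by
  apply Finset.card_lt_card
  rw [Finset.ssubset_iff_of_subset]
  · refine ⟨v, ?_, ?_⟩
    · rw [mem_sdiff]; exact ⟨mem_univ _, by assumption⟩
    · rw [mem_sdiff]
      intro h
      exact h.2 (mem_union_left _ (mem_insert_self _ _))
  · intro x hx
    rw [mem_sdiff] at hx ⊢
    refine ⟨hx.1, fun h => hx.2 ?_⟩
    rw [mem_union] at h ⊢
    rcases h with h | h
    · exact Or.inl (mem_insert_of_mem h)
    · exact Or.inr (mem_union_left _ h)

/-- Breaker can force a win of the `(1:b)` vertex `K_k`-game on `G` from the position, with Maker to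
move, in which Maker has claimed `M` and Breaker has claimed `B`. -/
def BreakerWinsFrom (G : SimpleGraph V) (k b : ℕ) (M B : Finset V) : Prop :=
  (M ∪ B = univ → ¬ ∃ K ⊆ M, G.IsNClique k K) ∧
    ∀ v, ∀ _ : v ∉ M ∪ B, ∃ T ⊆ univ \ (insert v M ∪ B),
      T.card = min b (univ \ (insert v M ∪ B)).card ∧
        BreakerWinsFrom G k b (insert v M) (B ∪ T)
termination_by (univ \ (M ∪ B)).card
decreasing_by
  apply Finset.card_lt_card
  rw [Finset.ssubset_iff_of_subset]
  · refine ⟨v, ?_, ?_⟩
    · rw [mem_sdiff]; exact ⟨mem_univ _, by assumption⟩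
    · rw [mem_sdiff]
      intro h
      exact h.2 (mem_union_left _ (mem_insert_self _ _))
  · intro x hx
    rw [mem_sdiff] at hx ⊢
    refine ⟨hx.1, fun h => hx.2 ?_⟩
    rw [mem_union] at h ⊢
    rcases h with h | h
    · exact Or.inl (mem_insert_of_mem h)
    · exact Or.inr (mem_union_left _ h)

theorem breaker_iff_not_maker (G : SimpleGraph V) (k b : ℕ) (M B : Finset V) :
    BreakerWinsFrom G k b M B ↔ ¬ MakerWinsFrom G k b M B := by
  induction hn : (univ \ (M ∪ B)).card using Nat.strong_induction_on generalizing M B with
  | _ n ih =>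
    rw [BreakerWinsFrom, MakerWinsFrom]
    push Not
    apply and_congr
    · exact Iff.rfl
    · apply forall_congr'
      intro v
      apply forall_congr'
      intro hv
      apply exists_congr
      intro T
      apply and_congr_right
      intro hT
      apply and_congr_right
      intro _
      apply ih _ _ _ _ rfl
      rw [← hn]
      apply Finset.card_lt_card
      rw [Finset.ssubset_iff_of_subset]
      · refine ⟨v, ?_, ?_⟩
        · rw [mem_sdiff]; exact ⟨mem_univ _, hv⟩
        · rw [mem_sdiff]
          intro h
          exact h.2 (mem_union_left _ (mem_insert_self _ _))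
      · intro x hx
        rw [mem_sdiff] at hx ⊢
        refine ⟨hx.1, fun h => hx.2 ?_⟩
        rw [mem_union] at h ⊢
        rcases h with h | h
        · exact Or.inl (mem_insert_of_mem h)
        · exact Or.inr (mem_union_left _ h)

/-- Pairing strategy. -/
theorem breaker_of_pairing (G : SimpleGraph V) (k b : ℕ) (hb : 1 ≤ b) (σ : V → V)
    (hσ : ∀ v, σ (σ v) = v)
    (hK : ∀ K : Finset V, G.IsNClique k K → ∃ v ∈ K, σ v ≠ v ∧ σ v ∈ K)
    (M B : Finset V) (hd : Disjoint M B) (hinv : ∀ v ∈ M, σ v ≠ v → σ v ∈ B) :
    BreakerWinsFrom G k b M B := by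
  induction hn : (univ \ (M ∪ B)).card using Nat.strong_induction_on generalizing M B with
  | _ n ih =>
    rw [BreakerWinsFrom]
    refine ⟨?_, ?_⟩
    · rintro _ ⟨K, hKM, hKc⟩
      obtain ⟨v, hv, hne, hv2⟩ := hK K hKc
      exact Finset.disjoint_left.1 hd (hKM hv2) (hinv v (hKM hv) hne)
    · intro v hv
      -- the set of remaining vertices
      set R := univ \ (insert v M ∪ B) with hR
      have hvM : v ∉ M := fun h => hv (mem_union_left _ h)
      have hvB : v ∉ B := fun h => hv (mem_union_right _ h)
      obtain ⟨T, hT1, hT2, hT3⟩ : ∃ T ⊆ R, T.card = min b R.card ∧ (σ v ∈ R → σ v ∈ T) := by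
        by_cases hs : σ v ∈ R
        · have h1 : ({σ v} : Finset V) ⊆ R := singleton_subset_iff.2 hs
          have h2 : ({σ v} : Finset V).card ≤ min b R.card := by
            rw [card_singleton]
            have := Finset.card_pos.2 ⟨_, hs⟩
            omega
          obtain ⟨T, hT1, hT2, hT3⟩ :=
            Finset.exists_subsuperset_card_eq h1 h2 (min_le_right _ _)
          exact ⟨T, hT2, hT3, fun _ => hT1 (mem_singleton_self _)⟩
        · obtain ⟨T, hT1, hT2⟩ := Finset.exists_subset_card_eq (min_le_right b R.card)
          exact ⟨T, hT1, hT2, fun h => absurd h hs⟩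
      refine ⟨T, hT1, hT2, ?_⟩
      apply ih _ _ _ _ _ _ rfl
      · rw [← hn]
        apply Finset.card_lt_card
        rw [Finset.ssubset_iff_of_subset]
        · refine ⟨v, ?_, ?_⟩
          · rw [mem_sdiff]; exact ⟨mem_univ _, hv⟩
          · rw [mem_sdiff]
            intro h
            exact h.2 (mem_union_left _ (mem_insert_self _ _))
        · intro x hx
          rw [mem_sdiff] at hx ⊢
          refine ⟨hx.1, fun h => hx.2 ?_⟩
          rw [mem_union] at h ⊢
          rcases h with h | h
          · exact Or.inl (mem_insert_of_mem h)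
          · exact Or.inr (mem_union_left _ h)
      · rw [Finset.disjoint_union_right, Finset.disjoint_insert_left, Finset.disjoint_left]
        refine ⟨⟨hvB, Finset.disjoint_left.1 hd⟩, ?_⟩
        rw [Finset.disjoint_left]
        intro x hx hxT
        have := hT1 hxT
        rw [hR, mem_sdiff] at this
        exact this.2 (mem_union_left _ hx)
      · intro x hx hne
        rcases mem_insert.1 hx with rfl | hx
        · by_cases hs : σ x ∈ R
          · exact mem_union_right _ (hT3 hs)
          · rw [hR, mem_sdiff] at hs
            push Not at hs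
            have h1 := hs (mem_univ _)
            rw [mem_union, mem_insert] at h1
            rcases h1 with (h1 | h1) | h1
            · exact absurd h1 hne
            · exfalso
              apply hvB
              have := hinv _ h1 (by rw [hσ]; exact hne.symm)
              rwa [hσ] at this
            · exact mem_union_left _ h1
        · exact mem_union_left _ (hinv x hx hne)

end Pool.Agent.Lib.MP_a33257_co
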