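import Mathlib
import Pool.Agent.Lib.MP_a33257_co.Game

namespace Pool.Agent.Lib.MP_a33257_co

open Finset

variable {V : Type*} [Fintype V] [DecidableEq V]

/-- A blob: a `(k+1)`-clique, or a `k`-clique not inside a `(k+1)`-clique. -/
def IsBlob (G : SimpleGraph V) (k : ℕ) (A : Finset V) : Prop :=
  G.IsNClique (k + 1) A ∨ (G.IsNClique k A ∧ ∀ D, G.IsNClique (k + 1) D → ¬ A ⊆ D)

/-- weight of a blob -/
def wt (k : ℕ) (A : Finset V) : ℕ := if A.card = k then 2 else 4

open Classical in
/-- blobs inside `U` -/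
noncomputable def blobsIn (G : SimpleGraph V) (k : ℕ) (U : Finset V) : Finset (Finset V) :=
  U.powerset.filter (IsBlob G k)

omit [Fintype V] [DecidableEq V] in
theorem mem_blobsIn {G : SimpleGraph V} {k : ℕ} {U A : Finset V} :
    A ∈ blobsIn G k U ↔ A ⊆ U ∧ IsBlob G k A := by
  classical
  unfold blobsIn
  rw [mem_filter, mem_powerset]

/-- total weight of the blobs inside `U` -/
noncomputable def om (G : SimpleGraph V) (k : ℕ) (U : Finset V) : ℕ :=
  ∑ A ∈ blobsIn G k U, wt k A

/-- swap within pairs -/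
def sw (i : Fin 4) : Fin 4 := if i = 0 then 1 else if i = 1 then 0 else if i = 2 then 3 else 2

theorem sw_sw (i : Fin 4) : sw (sw i) = i := by
  revert i; decide

theorem sw_ne (i : Fin 4) : sw i ≠ i := by
  revert i; decide

theorem sw_lt (i : Fin 4) (w : ℕ) (hw : w = 2 ∨ w = 4) (h : (i : ℕ) < w) : (sw i : ℕ) < w := by
  rcases hw with rfl | rfl
  · revert i; decide
  · exact (sw i).2

omit [Fintype V] [DecidableEq V] in
theorem wt_cases (k : ℕ) (A : Finset V) : wt k A = 2 ∨ wt k A = 4 := by
  unfold wt; split_ifs <;> simp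

theorem breaker_of_hall (G : SimpleGraph V) (k b : ℕ) (hb : 1 ≤ b)
    (h : ∀ U : Finset V, om G k U ≤ U.card) : BreakerWinsFrom G k b ∅ ∅ := by
  classical
  let ι := {x : Finset V × Fin 4 // IsBlob G k x.1 ∧ (x.2 : ℕ) < wt k x.1}
  have hall : ∀ s : Finset ι, s.card ≤ (s.biUnion (fun x => x.1.1)).card := by
    intro s
    refine le_trans ?_ (h _)
    unfold om
    have h1 : ∑ A ∈ blobsIn G k (s.biUnion (fun x => x.1.1)), wt k A =
        ((blobsIn G k (s.biUnion (fun x => x.1.1))).sigma
          (fun A => (univ : Finset (Fin 4)).filter (fun i : Fin 4 => (i : ℕ) < wt k A))).card := by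
      rw [Finset.card_sigma]
      apply Finset.sum_congr rfl
      intro A _
      rcases wt_cases k A with h2 | h2 <;> rw [h2] <;> rfl
    rw [h1]
    apply Finset.card_le_card_of_injOn (fun x : ι => (⟨x.1.1, x.1.2⟩ : Σ _ : Finset V, Fin 4))
    · intro x hx
      have hx := Finset.mem_coe.1 hx
      apply Finset.mem_coe.2
      rw [mem_sigma, mem_blobsIn, mem_filter]
      refine ⟨⟨?_, x.2.1⟩, mem_univ _, x.2.2⟩
      intro v hv
      exact mem_biUnion.2 ⟨x, hx, hv⟩
    · intro x _ y _ hxy
      simp only [Sigma.mk.injEq, heq_eq_eq] at hxy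
      exact Subtype.ext (Prod.ext hxy.1 hxy.2)
  obtain ⟨f, hf, hf2⟩ := (Finset.all_card_le_biUnion_card_iff_exists_injective
    (fun x : ι => x.1.1)).1 hall
  let τ : ι → ι := fun x => ⟨(x.1.1, sw x.1.2), x.2.1, sw_lt _ _ (wt_cases _ _) x.2.2⟩
  have hττ : ∀ x, τ (τ x) = x := fun x => Subtype.ext (Prod.ext rfl (sw_sw _))
  have hτne : ∀ x, τ x ≠ x := fun x hx =>
    sw_ne x.1.2 (congrArg (fun y : ι => y.1.2) hx)
  let σ : V → V := fun v => if hv : ∃ x, f x = v then f (τ hv.choose) else v
  have hσf : ∀ x, σ (f x) = f (τ x) := by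
    intro x
    have hx : ∃ y, f y = f x := ⟨x, rfl⟩
    have : hx.choose = x := hf hx.choose_spec
    show (if hv : ∃ y, f y = f x then f (τ hv.choose) else f x) = f (τ x)
    rw [dif_pos hx, this]
  have hσσ : ∀ v, σ (σ v) = v := by
    intro v
    by_cases hv : ∃ x, f x = v
    · obtain ⟨x, rfl⟩ := hv
      rw [hσf, hσf, hττ]
    · have : σ v = v := by
        show (if hv : ∃ y, f y = v then f (τ hv.choose) else v) = v
        rw [dif_neg hv]
      rw [this, this]
  apply breaker_of_pairing G k b hb σ hσσ _ ∅ ∅ (Finset.disjoint_empty_left _)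
  · intro v hv
    exact absurd hv (Finset.notMem_empty _)
  · intro K hK
    have fin : ∀ x : ι, f x ∈ K → f (τ x) ∈ K → ∃ v ∈ K, σ v ≠ v ∧ σ v ∈ K := by
      intro x h1 h2
      refine ⟨f x, h1, ?_, ?_⟩
      · rw [hσf]
        exact fun h3 => hτne x (hf h3)
      · rw [hσf]; exact h2
    by_cases hD : ∃ D, G.IsNClique (k + 1) D ∧ K ⊆ D
    · obtain ⟨D, hD1, hD2⟩ := hD
      have hblob : IsBlob G k D := Or.inl hD1
      have hw : wt k D = 4 := by
        unfold wt
        rw [if_neg]
        rw [hD1.card_eq]; omega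
      have hdiff : (D \ K).card = 1 := by
        rw [Finset.card_sdiff_of_subset hD2, hD1.card_eq, hK.card_eq]; omega
      let e : Fin 4 → ι := fun i => ⟨(D, i), hblob, by rw [hw]; exact i.2⟩
      have heinj : Function.Injective e := by
        intro i j hij
        exact congrArg (fun y : ι => y.1.2) hij
      have heD : ∀ i, f (e i) ∈ D := fun i => hf2 (e i)
      have hτe : ∀ i, τ (e i) = e (sw i) := fun i => rfl
      by_cases h01 : f (e 0) ∈ K ∧ f (e 1) ∈ K
      · exact fin (e 0) h01.1 (by rw [hτe]; exact h01.2)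
      · by_cases h23 : f (e 2) ∈ K ∧ f (e 3) ∈ K
        · exact fin (e 2) h23.1 (by rw [hτe]; exact h23.2)
        · exfalso
          -- two different vertices of `D` outside `K`
          have key : ∀ i j : Fin 4, i ≠ j → f (e i) ∉ K → f (e j) ∉ K → False := by
            intro i j hij hi hj
            have h2 : ({f (e i), f (e j)} : Finset V) ⊆ D \ K := by
              intro v hv
              rw [mem_insert, mem_singleton] at hv
              rw [mem_sdiff]
              rcases hv with rfl | rfl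
              · exact ⟨heD _, hi⟩
              · exact ⟨heD _, hj⟩
            have h3 := Finset.card_le_card h2
            rw [hdiff, Finset.card_pair (fun h4 => hij (heinj (hf h4)))] at h3
            omega
          rw [not_and_or] at h01 h23
          rcases h01 with h01 | h01 <;> rcases h23 with h23 | h23
          · exact key 0 2 (by decide) h01 h23
          · exact key 0 3 (by decide) h01 h23
          · exact key 1 2 (by decide) h01 h23
          · exact key 1 3 (by decide) h01 h23
    · have hblob : IsBlob G k K := Or.inr ⟨hK, fun D hD1 hD2 => hD ⟨D, hD1, hD2⟩⟩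
      have hw : wt k K = 2 := by
        unfold wt
        rw [if_pos hK.card_eq]
      have h0 : ((0 : Fin 4) : ℕ) < wt k K := by rw [hw]; decide
      exact fin ⟨(K, 0), hblob, h0⟩ (hf2 ⟨(K, 0), hblob, h0⟩) (hf2 (τ ⟨(K, 0), hblob, h0⟩))

end Pool.Agent.Lib.MP_a33257_co
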