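import Mathlib
import Pool.Agent.Lib.MP_a33257_co.Hall

namespace Pool.Agent.Lib.MP_a33257_co

open Finset

set_option linter.unusedSectionVars false

variable {V : Type*} [Fintype V] [DecidableEq V]

open Classical in
/-- neighbourhood of `v` inside `U` -/
noncomputable def nbh (G : SimpleGraph V) (U : Finset V) (v : V) : Finset V :=
  U.filter (fun w => G.Adj v w)

omit [Fintype V] [DecidableEq V] in
theorem mem_nbh {G : SimpleGraph V} {U : Finset V} {v w : V} :
    w ∈ nbh G U v ↔ w ∈ U ∧ G.Adj v w := by
  classical
  unfold nbh
  rw [mem_filter]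

/-- degree inside `U` -/
noncomputable def dg (G : SimpleGraph V) (U : Finset V) (v : V) : ℕ := (nbh G U v).card

/-- closed neighbourhood inside `U` has `dg + 1` elements -/
theorem card_closed (G : SimpleGraph V) (U : Finset V) (v : V) :
    (insert v (nbh G U v)).card = dg G U v + 1 := by
  rw [Finset.card_insert_of_notMem]
  · rfl
  · intro h
    exact G.loopless.irrefl v (mem_nbh.1 h).2

omit [Fintype V] in
theorem IsBlob.clique {G : SimpleGraph V} {k : ℕ} {A : Finset V} (h : IsBlob G k A) :
    G.IsClique A := by
  rcases h with h | h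
  · exact h.isClique
  · exact h.1.isClique

omit [Fintype V] [DecidableEq V] in
theorem IsBlob.card_cases {G : SimpleGraph V} {k : ℕ} {A : Finset V} (h : IsBlob G k A) :
    A.card = k ∨ A.card = k + 1 := by
  rcases h with h | h
  · exact Or.inr h.card_eq
  · exact Or.inl h.1.card_eq

omit [Fintype V] in
theorem IsBlob.subset_closed {G : SimpleGraph V} {k : ℕ} {A U : Finset V} (h : IsBlob G k A)
    (hU : A ⊆ U) {v : V} (hv : v ∈ A) : A ⊆ insert v (nbh G U v) := by
  intro w hw
  by_cases hvw : w = v
  · rw [hvw]; exact mem_insert_self _ _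
  · apply mem_insert_of_mem
    rw [mem_nbh]
    exact ⟨hU hw, h.clique hv hw (Ne.symm hvw)⟩

/-- two nested blobs are equal -/
theorem IsBlob.eq_of_subset {G : SimpleGraph V} {k : ℕ} {A B : Finset V} (hA : IsBlob G k A)
    (hB : IsBlob G k B) (h : B ⊆ A) : B = A := by
  apply Finset.eq_of_subset_of_card_le h
  rcases hA.card_cases with hc | hc
  · rcases hB.card_cases with hc' | hc' <;> omega
  · rcases hB with hB | hB
    · rw [hB.card_eq, hc]
    · exfalso
      rcases hA with hA | hA
      · exact hB.2 A hA h
      · have := hA.1.card_eq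
        omega

/-- A minimal violator of the Hall condition. -/
structure MinViol (G : SimpleGraph V) (k : ℕ) (U : Finset V) : Prop where
  viol : U.card < om G k U
  min : ∀ W, W ⊂ U → om G k W ≤ W.card

theorem MinViol.hit {G : SimpleGraph V} {k : ℕ} {U : Finset V} (h : MinViol G k U)
    (R : Finset V) (hR : R ⊆ U) (hne : R.Nonempty) :
    R.card + 1 ≤ ∑ A ∈ (blobsIn G k U).filter (fun A => ¬ Disjoint A R), wt k A := by
  have h1 : om G k U = ∑ A ∈ (blobsIn G k U).filter (fun A => Disjoint A R), wt k A +
      ∑ A ∈ (blobsIn G k U).filter (fun A => ¬ Disjoint A R), wt k A := by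
    unfold om
    rw [Finset.sum_filter_add_sum_filter_not]
  have h2 : (blobsIn G k U).filter (fun A => Disjoint A R) = blobsIn G k (U \ R) := by
    ext A
    rw [mem_filter, mem_blobsIn, mem_blobsIn, Finset.subset_sdiff]
    tauto
  have h3 : om G k (U \ R) ≤ (U \ R).card := by
    apply h.min
    exact Finset.sdiff_ssubset hR hne
  rw [h2] at h1
  have h4 : (U \ R).card = U.card - R.card := Finset.card_sdiff_of_subset hR
  have h5 := Finset.card_le_card hR
  have h6 := h.viol
  unfold om at h1 h3 h6
  omega

/-- if all blobs meeting `R` lie in a finset, bound the cardinality of `R` -/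
theorem MinViol.card_le {G : SimpleGraph V} {k : ℕ} {U : Finset V} (h : MinViol G k U)
    (R : Finset V) (hR : R ⊆ U) (hne : R.Nonempty) (S : Finset (Finset V))
    (hS : ∀ A, A ⊆ U → IsBlob G k A → ¬ Disjoint A R → A ∈ S) :
    R.card + 1 ≤ ∑ A ∈ S, wt k A := by
  refine le_trans (h.hit R hR hne) ?_
  apply Finset.sum_le_sum_of_subset
  intro A hA
  rw [mem_filter, mem_blobsIn] at hA
  exact hS A hA.1.1 hA.1.2 hA.2

theorem MinViol.exists_blob {G : SimpleGraph V} {k : ℕ} {U : Finset V} (h : MinViol G k U)
    {v : V} (hv : v ∈ U) : ∃ A, A ⊆ U ∧ IsBlob G k A ∧ v ∈ A := by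
  by_contra hcon
  push Not at hcon
  have := h.card_le {v} (singleton_subset_iff.2 hv) ⟨v, mem_singleton_self v⟩ ∅ (by
    intro A hA1 hA2 hA3
    exfalso
    apply hA3
    rw [Finset.disjoint_singleton_right]
    exact hcon A hA1 hA2)
  simp at this

/-- each blob of a minimal violator has at most one vertex of degree less than `k`. -/
theorem MinViol.private_le {G : SimpleGraph V} {k : ℕ} {U : Finset V} (h : MinViol G k U)
    {A : Finset V} (hA : IsBlob G k A) (hAU : A ⊆ U) {y y' : V} (hy : y ∈ A) (hy' : y' ∈ A)
    (hd : dg G U y + 1 ≤ k) (hd' : dg G U y' + 1 ≤ k) : y = y' := by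
  by_contra hne
  have key : ∀ z ∈ A, dg G U z + 1 ≤ k → insert z (nbh G U z) = A := by
    intro z hz hdz
    symm
    apply Finset.eq_of_subset_of_card_le (hA.subset_closed hAU hz)
    rw [card_closed]
    rcases hA.card_cases with hc | hc <;> omega
  have hcard : A.card = k := by
    have h1 := key y hy hd
    have h2 := card_closed G U y
    rw [h1] at h2
    rcases hA.card_cases with hc | hc
    · exact hc
    · omega
  have h1 := h.card_le {y, y'} (by
      intro z hz
      rw [mem_insert, mem_singleton] at hz
      rcases hz with rfl | rfl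
      · exact hAU hy
      · exact hAU hy') ⟨y, mem_insert_self _ _⟩ {A} (by
    intro B hBU hB hBd
    rw [Finset.not_disjoint_iff] at hBd
    obtain ⟨z, hzB, hz⟩ := hBd
    rw [mem_insert, mem_singleton] at hz
    rw [mem_singleton]
    rcases hz with rfl | rfl
    · apply hA.eq_of_subset hB
      rw [← key z hy hd]
      exact hB.subset_closed hBU hzB
    · apply hA.eq_of_subset hB
      rw [← key z hy' hd']
      exact hB.subset_closed hBU hzB)
  rw [Finset.card_pair hne, Finset.sum_singleton] at h1
  unfold wt at h1
  rw [if_pos hcard] at h1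
  omega

open Classical in
/-- each blob of a minimal violator has at most four vertices of degree at most `k`. -/
theorem MinViol.low_le {G : SimpleGraph V} {k : ℕ} {U : Finset V} (h : MinViol G k U)
    {A : Finset V} (hA : IsBlob G k A) (hAU : A ⊆ U) :
    (A.filter (fun v => dg G U v ≤ k)).card ≤ 4 := by
  set R := A.filter (fun v => dg G U v ≤ k) with hRdef
  have hRA : R ⊆ A := Finset.filter_subset _ _
  have hRU : R ⊆ U := hRA.trans hAU
  rcases R.eq_empty_or_nonempty with hR0 | hRne
  · rw [hR0]; simp
  have hlow : ∀ v ∈ R, (insert v (nbh G U v)).card ≤ k + 1 := by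
    intro v hv
    rw [card_closed]
    have := (mem_filter.1 hv).2
    omega
  rcases hA.card_cases with hc | hc
  · -- `A` is a `k`-clique
    have hA2 : ∀ D, G.IsNClique (k + 1) D → ¬ A ⊆ D := by
      rcases hA with hA | hA
      · have := hA.card_eq; omega
      · exact hA.2
    -- a second blob containing a low vertex
    have c1 : ∀ v ∈ R, ∀ B, IsBlob G k B → B ⊆ U → v ∈ B → B.card = k := by
      intro v hv B hB hBU hvB
      rcases hB.card_cases with hcB | hcB
      · exact hcB
      · exfalso
        have h1 : B = insert v (nbh G U v) := by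
          apply Finset.eq_of_subset_of_card_le (hB.subset_closed hBU hvB)
          rw [hcB]; exact hlow v hv
        have h2 : G.IsNClique (k + 1) B := ⟨hB.clique, hcB⟩
        apply hA2 B h2
        rw [h1]
        exact hA.subset_closed hAU (hRA hv)
    have c2 : ∀ v ∈ R, ∀ B C, IsBlob G k B → B ⊆ U → v ∈ B → B ≠ A →
        IsBlob G k C → C ⊆ U → v ∈ C → C ≠ A → B = C := by
      intro v hv B C hB hBU hvB hBA hC hCU hvC hCA
      have hcB := c1 v hv B hB hBU hvB
      have hcC := c1 v hv C hC hCU hvC
      set N := insert v (nbh G U v) with hN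
      have sA : A ⊆ N := hA.subset_closed hAU (hRA hv)
      have sB : B ⊆ N := hB.subset_closed hBU hvB
      have sC : C ⊆ N := hC.subset_closed hCU hvC
      have hNc : N.card = k + 1 := by
        have h1 : N.card ≤ k + 1 := hlow v hv
        rcases Nat.lt_or_ge N.card (k + 1) with h2 | h2
        · exfalso
          have h3 : A = N := Finset.eq_of_subset_of_card_le sA (by omega)
          apply hBA
          apply Finset.eq_of_subset_of_card_le
          · exact h3 ▸ sB
          · rw [hc, hcB]
        · omega
      -- the extra vertex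
      have hz : ∃ z, N \ A = {z} := by
        rw [← Finset.card_eq_one, Finset.card_sdiff_of_subset sA]; omega
      obtain ⟨z, hz⟩ := hz
      have hzN : z ∈ N ∧ z ∉ A := by
        have : z ∈ N \ A := by rw [hz]; exact mem_singleton_self _
        exact mem_sdiff.1 this
      have hNA : ∀ x ∈ N, x = z ∨ x ∈ A := by
        intro x hx
        by_cases hxA : x ∈ A
        · exact Or.inr hxA
        · left
          have : x ∈ N \ A := mem_sdiff.2 ⟨hx, hxA⟩
          rw [hz] at this
          exact mem_singleton.1 this
      have zmem : ∀ E : Finset V, E ⊆ N → E.card = k → E ≠ A → z ∈ E := by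
        intro E hE hEc hEA
        by_contra hzE
        apply hEA
        apply Finset.eq_of_subset_of_card_le
        · intro x hx
          rcases hNA x (hE hx) with rfl | hxA
          · exact absurd hx hzE
          · exact hxA
        · omega
      have hzB := zmem B sB hcB hBA
      have hzC := zmem C sC hcC hCA
      by_contra hBC
      -- then `N` is a clique
      apply hA2 N ?_ sA
      refine ⟨?_, hNc⟩
      have hcov : ∀ y ∈ N, y ∈ B ∨ y ∈ C := by
        intro y hy
        by_contra hyy
        rw [not_or] at hyy
        apply hBC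
        have e1 : B = N.erase y := by
          apply Finset.eq_of_subset_of_card_le
          · intro x hx
            exact mem_erase.2 ⟨fun hxy => hyy.1 (hxy ▸ hx), sB hx⟩
          · rw [Finset.card_erase_of_mem hy]; omega
        have e2 : C = N.erase y := by
          apply Finset.eq_of_subset_of_card_le
          · intro x hx
            exact mem_erase.2 ⟨fun hxy => hyy.2 (hxy ▸ hx), sC hx⟩
          · rw [Finset.card_erase_of_mem hy]; omega
        rw [e1, e2]
      have hadjz : ∀ y ∈ N, y ≠ z → G.Adj z y := by
        intro y hy hyz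
        rcases hcov y hy with hyB | hyC
        · exact hB.clique hzB hyB (Ne.symm hyz)
        · exact hC.clique hzC hyC (Ne.symm hyz)
      intro x hx y hy hxy
      have hx := Finset.mem_coe.1 hx
      have hy := Finset.mem_coe.1 hy
      rcases hNA x hx with rfl | hxA
      · exact hadjz y hy (Ne.symm hxy)
      · rcases hNA y hy with rfl | hyA
        · exact (hadjz x hx hxy).symm
        · exact hA.clique hxA hyA hxy
    by_cases hex : ∃ v ∈ R, ∃ B, IsBlob G k B ∧ B ⊆ U ∧ v ∈ B ∧ B ≠ A
    · obtain ⟨v, hv, B, hB, hBU, hvB, hBA⟩ := hex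
      have hcB := c1 v hv B hB hBU hvB
      have h1 : (R ∩ B).card + 1 ≤ ∑ A ∈ ({A, B} : Finset (Finset V)), wt k A := by
        apply h.card_le (R ∩ B) (Finset.inter_subset_left.trans hRU)
          ⟨v, mem_inter.2 ⟨hv, hvB⟩⟩
        intro C hCU hC hCd
        rw [Finset.not_disjoint_iff] at hCd
        obtain ⟨w, hwC, hw⟩ := hCd
        rw [mem_inter] at hw
        rw [mem_insert, mem_singleton]
        by_cases hCA : C = A
        · exact Or.inl hCA
        · right
          exact c2 w hw.1 C B hC hCU hwC hCA hB hBU hw.2 hBA
      rw [Finset.sum_pair (Ne.symm hBA)] at h1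
      unfold wt at h1
      rw [if_pos hc, if_pos hcB] at h1
      have h2 : (R \ B).card ≤ 1 := by
        have h3 : R \ B ⊆ insert v (nbh G U v) \ B := by
          apply Finset.sdiff_subset_sdiff _ (le_refl _)
          exact hRA.trans (hA.subset_closed hAU (hRA hv))
        refine le_trans (Finset.card_le_card h3) ?_
        rw [Finset.card_sdiff_of_subset (hB.subset_closed hBU hvB), hcB]
        have := hlow v hv
        omega
      have h4 : R.card = (R ∩ B).card + (R \ B).card := by
        rw [Finset.card_inter_add_card_sdiff]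
      omega
    · push Not at hex
      have h1 : R.card + 1 ≤ ∑ A ∈ ({A} : Finset (Finset V)), wt k A := by
        apply h.card_le R hRU hRne
        intro C hCU hC hCd
        rw [Finset.not_disjoint_iff] at hCd
        obtain ⟨w, hwC, hw⟩ := hCd
        rw [mem_singleton]
        exact hex w hw C hC hCU hwC
      rw [Finset.sum_singleton] at h1
      rcases wt_cases k A with h2 | h2 <;> omega
  · -- `A` is a `(k+1)`-clique
    have h1 : R.card + 1 ≤ ∑ A ∈ ({A} : Finset (Finset V)), wt k A := by
      apply h.card_le R hRU hRne
      intro C hCU hC hCd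
      rw [Finset.not_disjoint_iff] at hCd
      obtain ⟨w, hwC, hw⟩ := hCd
      rw [mem_singleton]
      have h2 : A = insert w (nbh G U w) := by
        apply Finset.eq_of_subset_of_card_le (hA.subset_closed hAU (hRA hw))
        rw [hc]; exact hlow w hw
      apply hA.eq_of_subset hC
      rw [h2]
      exact hC.subset_closed hCU hwC
    rw [Finset.sum_singleton] at h1
    rcases wt_cases k A with h2 | h2 <;> omega

end Pool.Agent.Lib.MP_a33257_co
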