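import Mathlib
import Pool.Agent.Lib.MP_a33257_co.Density

namespace Pool.Agent.Lib.MP_a33257_co

open Finset

set_option linter.unusedSectionVars false

variable {V : Type*} [Fintype V] [DecidableEq V]

open Classical in
/-- the number of neighbours of degree less than `k` -/
theorem MinViol.private_nbrs {G : SimpleGraph V} {k : ℕ} {U : Finset V}
    (h : MinViol G k U) {v : V} (hv : v ∈ U) :
    (U.filter (fun y => dg G U y + 1 ≤ k ∧ G.Adj y v)).card + k ≤ dg G U v + 2 := by
  set Y := U.filter (fun y => dg G U y + 1 ≤ k ∧ G.Adj y v) with hY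
  -- degree of `v` at least `k - 1`
  have hdv : k ≤ dg G U v + 1 := by
    obtain ⟨A, hAU, hA, hvA⟩ := h.exists_blob hv
    have h1 := Finset.card_le_card (hA.subset_closed hAU hvA)
    rw [card_closed] at h1
    rcases hA.card_cases with hc | hc <;> omega
  rcases Y.eq_empty_or_nonempty with hY0 | ⟨y0, hy0⟩
  · rw [hY0]; simp; omega
  have hy0' := (mem_filter.1 hy0)
  obtain ⟨A, hAU, hA, hyA⟩ := h.exists_blob hy0'.1
  have hNA : insert y0 (nbh G U y0) = A := by
    symm
    apply Finset.eq_of_subset_of_card_le (hA.subset_closed hAU hyA)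
    rw [card_closed]
    rcases hA.card_cases with hc | hc <;> omega
  have hvA : v ∈ A := by
    rw [← hNA]
    apply mem_insert_of_mem
    rw [mem_nbh]
    exact ⟨hv, hy0'.2.2⟩
  have hsub : (A.erase v) ∪ (Y.erase y0) ⊆ nbh G U v := by
    intro w hw
    rw [mem_union, mem_erase, mem_erase] at hw
    rw [mem_nbh]
    rcases hw with hw | hw
    · exact ⟨hAU hw.2, hA.clique hvA hw.2 (Ne.symm hw.1)⟩
    · have := mem_filter.1 hw.2
      exact ⟨this.1, this.2.2.symm⟩
  have hdisj : Disjoint (A.erase v) (Y.erase y0) := by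
    rw [Finset.disjoint_left]
    intro w hw1 hw2
    have h1 := mem_erase.1 hw1
    have h2 := mem_erase.1 hw2
    have h3 := mem_filter.1 h2.2
    exact h2.1 (h.private_le hA hAU h1.2 hyA h3.2.1 hy0'.2.1)
  have h1 := Finset.card_le_card hsub
  rw [Finset.card_union_of_disjoint hdisj, Finset.card_erase_of_mem hvA,
    Finset.card_erase_of_mem hy0] at h1
  have h2 : 0 < Y.card := Finset.card_pos.2 ⟨y0, hy0⟩
  have h3 : k ≤ A.card := by rcases hA.card_cases with hc | hc <;> omega
  have h4 : (nbh G U v).card = dg G U v := rfl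
  omega

open Classical in
/-- every vertex of low degree has at least `k - 4` neighbours of high degree -/
theorem MinViol.high_nbrs {G : SimpleGraph V} {k : ℕ} {U : Finset V}
    (h : MinViol G k U) {y : V} (hy : y ∈ U) (hd : dg G U y ≤ k) :
    k ≤ (U.filter (fun v => k < dg G U v ∧ G.Adj y v)).card + 4 := by
  obtain ⟨A, hAU, hA, hyA⟩ := h.exists_blob hy
  have h1 := h.low_le hA hAU
  have h2 : A.filter (fun v => ¬ dg G U v ≤ k) ⊆ U.filter (fun v => k < dg G U v ∧ G.Adj y v) := by
    intro v hv
    rw [mem_filter] at hv ⊢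
    refine ⟨hAU hv.1, by omega, ?_⟩
    apply hA.clique hyA hv.1
    intro hyv
    rw [hyv] at hd
    exact hv.2 hd
  have h3 := Finset.card_le_card h2
  have h4 := Finset.card_filter_add_card_filter_not (s := A) (fun v => dg G U v ≤ k)
  rcases hA.card_cases with hc | hc <;> omega

open Classical in
/-- a minimal violator is dense -/
theorem MinViol.dense {G : SimpleGraph V} {k : ℕ} (hk : 10 ≤ k) {U : Finset V}
    (h : MinViol G k U) : (6 * k + 1) * U.card ≤ 6 * ∑ v ∈ U, dg G U v := by
  set L := U.filter (fun v => dg G U v ≤ k) with hL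
  set H := U.filter (fun v => ¬ dg G U v ≤ k) with hH
  set X := L.filter (fun v => dg G U v + 1 ≤ k) with hX
  have hLU : L ⊆ U := Finset.filter_subset _ _
  have hHU : H ⊆ U := Finset.filter_subset _ _
  have hXL : X ⊆ L := Finset.filter_subset _ _
  -- double counting for `X`
  have e1 : (k - 4) * X.card ≤ ∑ v ∈ H, (dg G U v + 2 - k) := by
    have h1 := Finset.sum_card_bipartiteAbove_eq_sum_card_bipartiteBelow
      (s := X) (t := H) (fun a b => G.Adj a b)
    have h2 : (k - 4) * X.card ≤ ∑ y ∈ X, (H.bipartiteAbove (fun a b => G.Adj a b) y).card := by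
      rw [mul_comm, ← smul_eq_mul]
      apply Finset.card_nsmul_le_sum
      intro y hy
      have hyL := hXL hy
      have h3 := h.high_nbrs (hLU hyL) (mem_filter.1 hyL).2
      have h4 : H.bipartiteAbove (fun a b => G.Adj a b) y =
          U.filter (fun v => k < dg G U v ∧ G.Adj y v) := by
        ext v
        rw [Finset.mem_bipartiteAbove, hH, mem_filter, mem_filter]
        constructor
        · rintro ⟨⟨a, b⟩, c⟩; exact ⟨a, by omega, c⟩
        · rintro ⟨a, b, c⟩; exact ⟨⟨a, by omega⟩, c⟩
      rw [h4]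
      omega
    refine le_trans h2 ?_
    rw [h1]
    apply Finset.sum_le_sum
    intro v hv
    have h3 := h.private_nbrs (hHU hv)
    have h4 : (X.bipartiteBelow (fun a b => G.Adj a b) v).card ≤
        (U.filter (fun y => dg G U y + 1 ≤ k ∧ G.Adj y v)).card := by
      apply Finset.card_le_card
      intro y hy
      rw [Finset.mem_bipartiteBelow] at hy
      rw [mem_filter]
      exact ⟨hLU (hXL hy.1), (mem_filter.1 hy.1).2, hy.2⟩
    omega
  have e2 : (k - 4) * L.card ≤ ∑ v ∈ H, dg G U v := by
    have h1 := Finset.sum_card_bipartiteAbove_eq_sum_card_bipartiteBelow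
      (s := L) (t := H) (fun a b => G.Adj a b)
    have h2 : (k - 4) * L.card ≤ ∑ y ∈ L, (H.bipartiteAbove (fun a b => G.Adj a b) y).card := by
      rw [mul_comm, ← smul_eq_mul]
      apply Finset.card_nsmul_le_sum
      intro y hy
      have h3 := h.high_nbrs (hLU hy) (mem_filter.1 hy).2
      have h4 : H.bipartiteAbove (fun a b => G.Adj a b) y =
          U.filter (fun v => k < dg G U v ∧ G.Adj y v) := by
        ext v
        rw [Finset.mem_bipartiteAbove, hH, mem_filter, mem_filter]
        constructor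
        · rintro ⟨⟨a, b⟩, c⟩; exact ⟨a, by omega, c⟩
        · rintro ⟨a, b, c⟩; exact ⟨⟨a, by omega⟩, c⟩
      rw [h4]
      omega
    refine le_trans h2 ?_
    rw [h1]
    apply Finset.sum_le_sum
    intro v hv
    apply Finset.card_le_card
    intro y hy
    rw [Finset.mem_bipartiteBelow] at hy
    rw [mem_nbh]
    exact ⟨hLU hy.1, hy.2.symm⟩
  -- total degree
  have e3 : ∑ v ∈ U, dg G U v = ∑ v ∈ L, dg G U v + ∑ v ∈ H, dg G U v :=
    (Finset.sum_filter_add_sum_filter_not _ _ _).symm
  have e4 : k * L.card ≤ ∑ v ∈ L, dg G U v + X.card := by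
    have h1 : X.card = ∑ v ∈ L, if dg G U v + 1 ≤ k then 1 else 0 := by
      rw [hX, Finset.card_filter]
    rw [h1, ← Finset.sum_add_distrib, mul_comm, ← smul_eq_mul]
    apply Finset.card_nsmul_le_sum
    intro v hv
    have hdv : k ≤ dg G U v + 1 := by
      obtain ⟨A, hAU, hA, hvA⟩ := h.exists_blob (hLU hv)
      have h1 := Finset.card_le_card (hA.subset_closed hAU hvA)
      rw [card_closed] at h1
      rcases hA.card_cases with hc | hc <;> omega
    split_ifs with h2 <;> omega
  have e5 : (k + 1) * H.card ≤ ∑ v ∈ H, dg G U v := by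
    rw [mul_comm, ← smul_eq_mul]
    apply Finset.card_nsmul_le_sum
    intro v hv
    have := (mem_filter.1 hv).2
    omega
  have e6 : ∑ v ∈ H, (dg G U v + 2 - k) + k * H.card = ∑ v ∈ H, dg G U v + 2 * H.card := by
    have h1 : k * H.card = ∑ v ∈ H, k := by rw [Finset.sum_const, smul_eq_mul, mul_comm]
    have h2 : 2 * H.card = ∑ v ∈ H, 2 := by rw [Finset.sum_const, smul_eq_mul, mul_comm]
    rw [h1, h2, ← Finset.sum_add_distrib, ← Finset.sum_add_distrib]
    apply Finset.sum_congr rfl
    intro v hv
    have := (mem_filter.1 hv).2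
    omega
  have e7 : U.card = L.card + H.card := (Finset.card_filter_add_card_filter_not _).symm
  rw [e3, e7]
  generalize ∑ v ∈ H, dg G U v = S at *
  generalize ∑ v ∈ L, dg G U v = T at *
  generalize ∑ v ∈ H, (dg G U v + 2 - k) = Q at *
  generalize X.card = x at *
  generalize L.card = l at *
  generalize H.card = η at *
  obtain ⟨m, rfl⟩ : ∃ m, k = m + 4 := ⟨k - 4, by omega⟩
  have hm : m + 4 - 4 = m := by omega
  rw [hm] at e1 e2
  -- h := S - kη
  obtain ⟨d, hd⟩ : ∃ d, S = (m + 4) * η + d := ⟨S - (m + 4) * η, by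
    have : (m + 4) * η ≤ S := by nlinarith
    omega⟩
  subst hd
  have f1 : η ≤ d := by nlinarith
  have f2 : 2 * x ≤ d := by
    have h1 : m * x ≤ 3 * d := by
      have : Q = d + 2 * η := by nlinarith
      nlinarith
    nlinarith
  have f3 : l ≤ 2 * d := by
    have h1 : m * l ≤ m * (2 * d) := by nlinarith
    exact Nat.le_of_mul_le_mul_left h1 (by omega)
  nlinarith

end Pool.Agent.Lib.MP_a33257_co
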