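import Mathlib
import Pool.Agent.Lib.MP_a33257_co.Density2

namespace Pool.Agent.Lib.MP_a33257_co

open Finset

set_option linter.unusedSectionVars false

variable {V : Type*} [Fintype V] [DecidableEq V]

/-- The exploration can be run for `m` more moves from processed set `P` and discovered set `W`. -/
def Run (G : SimpleGraph V) (k : ℕ) : ℕ → Finset V → Finset V → Prop
  | 0, _, _ => True
  | m + 1, P, W => ∃ h : (W \ P).Nonempty,
      Run G k m (insert h.choose P) W ∨
        ∃ A, G.IsNClique k A ∧ h.choose ∈ A ∧ ¬ A ⊆ W ∧ Run G k m P (W ∪ A)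

/-- closed under `k`-cliques meeting the set -/
def Closed (G : SimpleGraph V) (k : ℕ) (W : Finset V) : Prop :=
  ∀ A, G.IsNClique k A → ¬ Disjoint A W → A ⊆ W

theorem exists_closed {G : SimpleGraph V} {k : ℕ} (m : ℕ) (P W : Finset V)
    (hrun : ¬ Run G k m P W) (hP : ∀ A, G.IsNClique k A → ¬ Disjoint A P → A ⊆ W)
    (hPW : P ⊆ W) :
    ∃ W', W ⊆ W' ∧ Closed G k W' ∧ W'.card ≤ W.card + m * k := by
  induction m generalizing P W with
  | zero => exact absurd trivial hrun
  | succ m ih =>
    by_cases hne : (W \ P).Nonempty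
    · have hw := hne.choose_spec
      have hwW : hne.choose ∈ W := (mem_sdiff.1 hw).1
      by_cases hex : ∃ A, G.IsNClique k A ∧ hne.choose ∈ A ∧ ¬ A ⊆ W
      · obtain ⟨A, hA1, hA2, hA3⟩ := hex
        have h1 : ¬ Run G k m P (W ∪ A) := by
          intro h2
          exact hrun ⟨hne, Or.inr ⟨A, hA1, hA2, hA3, h2⟩⟩
        obtain ⟨W', h2, h3, h4⟩ := ih P (W ∪ A) h1
          (fun B hB hBd => (hP B hB hBd).trans subset_union_left)
          (hPW.trans subset_union_left)
        refine ⟨W', subset_union_left.trans h2, h3, ?_⟩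
        have h5 := Finset.card_union_le W A
        rw [hA1.card_eq] at h5
        nlinarith
      · push Not at hex
        have h1 : ¬ Run G k m (insert hne.choose P) W := by
          intro h2
          exact hrun ⟨hne, Or.inl h2⟩
        obtain ⟨W', h2, h3, h4⟩ := ih (insert hne.choose P) W h1 (by
          intro B hB hBd
          rw [Finset.disjoint_insert_right, not_and_or, not_not] at hBd
          rcases hBd with h | h
          · exact hex B hB h
          · exact hP B hB h) (by
          intro x hx
          rcases mem_insert.1 hx with rfl | hx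
          · exact hwW
          · exact hPW hx)
        refine ⟨W', h2, h3, ?_⟩
        nlinarith
    · have hWP : W ⊆ P := by
        intro x hx
        by_contra hxP
        exact hne ⟨x, mem_sdiff.2 ⟨hx, hxP⟩⟩
      refine ⟨W, le_refl _, ?_, Nat.le_add_right _ _⟩
      intro A hA hAd
      apply hP A hA
      intro hd
      apply hAd
      exact hd.mono_right hWP

theorem Closed.blob {G : SimpleGraph V} {k : ℕ} (hk : 2 ≤ k) {W : Finset V} (h : Closed G k W)
    {A : Finset V} (hA : IsBlob G k A) (hd : ¬ Disjoint A W) : A ⊆ W := by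
  rcases hA with hA | hA
  · rw [Finset.not_disjoint_iff] at hd
    obtain ⟨v, hvA, hvW⟩ := hd
    intro w hw
    have h1 : ({v, w} : Finset V) ⊆ A := by
      intro x hx
      rw [mem_insert, mem_singleton] at hx
      rcases hx with rfl | rfl
      · exact hvA
      · exact hw
    obtain ⟨B, hB1, hB2, hB3⟩ := Finset.exists_subsuperset_card_eq (n := k) h1
      ((Finset.card_le_two).trans hk) (by rw [hA.card_eq]; omega)
    have h2 : B ⊆ W := by
      apply h B ⟨hA.isClique.subset (by exact_mod_cast hB2), hB3⟩
      rw [Finset.not_disjoint_iff]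
      exact ⟨v, hB1 (mem_insert_self _ _), hvW⟩
    exact h2 (hB1 (mem_insert_of_mem (mem_singleton_self _)))
  · exact h A hA.1 hd

theorem MinViol.subset_closed {G : SimpleGraph V} {k : ℕ} (hk : 2 ≤ k) {U W : Finset V}
    (hU : MinViol G k U) (hW : Closed G k W) (hd : ¬ Disjoint U W) : U ⊆ W := by
  by_contra hcon
  have h1 : U ∩ W ⊂ U := by
    rw [Finset.ssubset_iff_subset_ne]
    refine ⟨inter_subset_left, fun h => hcon ?_⟩
    rw [← h]; exact inter_subset_right
  have h2 : U \ W ⊂ U := by
    rw [Finset.ssubset_iff_subset_ne]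
    refine ⟨sdiff_subset, fun h => hd ?_⟩
    exact Finset.sdiff_eq_self_iff_disjoint.1 h
  have h3 : blobsIn G k U = blobsIn G k (U ∩ W) ∪ blobsIn G k (U \ W) := by
    ext A
    rw [mem_union, mem_blobsIn, mem_blobsIn, mem_blobsIn]
    constructor
    · rintro ⟨hAU, hA⟩
      by_cases hAd : Disjoint A W
      · exact Or.inr ⟨Finset.subset_sdiff.2 ⟨hAU, hAd⟩, hA⟩
      · exact Or.inl ⟨Finset.subset_inter hAU (hW.blob hk hA hAd), hA⟩
    · rintro (⟨h, hA⟩ | ⟨h, hA⟩)
      · exact ⟨h.trans inter_subset_left, hA⟩
      · exact ⟨h.trans sdiff_subset, hA⟩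
  have h4 : om G k U ≤ om G k (U ∩ W) + om G k (U \ W) := by
    unfold om
    rw [h3]
    exact Finset.sum_union_inter (s₁ := blobsIn G k (U ∩ W)) (s₂ := blobsIn G k (U \ W))
      (f := wt k) ▸ Nat.le_add_right _ _
  have h5 := hU.min _ h1
  have h6 := hU.min _ h2
  have h7 := hU.viol
  have h8 := Finset.card_inter_add_card_sdiff U W
  omega

/-- Deterministic criterion for Breaker's win. -/
theorem breaker_of_sparse {G : SimpleGraph V} {k b m : ℕ} (hk : 10 ≤ k) (hb : 1 ≤ b)
    (h1 : ∀ A, G.IsNClique k A → ¬ Run G k m ∅ A)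
    (h2 : ∀ U : Finset V, U.Nonempty → U.card ≤ k + m * k →
      6 * ∑ v ∈ U, dg G U v < (6 * k + 1) * U.card) :
    BreakerWinsFrom G k b ∅ ∅ := by
  apply breaker_of_hall G k b hb
  intro U
  induction hn : U.card using Nat.strong_induction_on generalizing U with
  | _ n ih =>
    by_contra hcon
    have hU : MinViol G k U := by
      refine ⟨by omega, ?_⟩
      intro W hW
      have := Finset.card_lt_card hW
      exact ih W.card (by omega) W rfl
    have hUne : U.Nonempty := by
      rw [Finset.nonempty_iff_ne_empty]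
      rintro rfl
      have h3 := hU.viol
      have : blobsIn G k (∅ : Finset V) = ∅ := by
        rw [Finset.eq_empty_iff_forall_notMem]
        intro A hA
        rw [mem_blobsIn, Finset.subset_empty] at hA
        have := hA.2.card_cases
        rw [hA.1] at this
        simp at this
        omega
      unfold om at h3
      rw [this] at h3
      simp at h3
    obtain ⟨v, hv⟩ := hUne
    obtain ⟨A, hAU, hA, hvA⟩ := hU.exists_blob hv
    obtain ⟨B, hBA, hBc⟩ : ∃ B ⊆ A, B.card = k := by
      apply Finset.exists_subset_card_eq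
      rcases hA.card_cases with hc | hc <;> omega
    have hB : G.IsNClique k B := ⟨hA.clique.subset (by exact_mod_cast hBA), hBc⟩
    obtain ⟨W, hW1, hW2, hW3⟩ := exists_closed m ∅ B (h1 B hB)
      (fun C _ hC => absurd (Finset.disjoint_empty_right C) hC) (Finset.empty_subset _)
    have hUW : U ⊆ W := by
      apply hU.subset_closed (by omega) hW2
      have hBne : B.Nonempty := Finset.card_pos.1 (by omega)
      obtain ⟨w, hw⟩ := hBne
      rw [Finset.not_disjoint_iff]
      exact ⟨w, hAU (hBA hw), hW1 hw⟩
    have h3 := Finset.card_le_card hUW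
    rw [hBc] at hW3
    have h4 := h2 U ⟨v, hv⟩ (by omega)
    have h5 := hU.dense hk
    omega

end Pool.Agent.Lib.MP_a33257_co
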