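import Mathlib
import Pool.Agent.Lib.MP_a33257_co.Explore

namespace Pool.Agent.Lib.MP_a33257_co

open Finset MeasureTheory ProbabilityTheory unitInterval SimpleGraph

set_option linter.unusedSectionVars false

variable {V : Type} [Fintype V] [DecidableEq V]

/-- probability of an event in the binomial random graph -/
noncomputable def pr (V : Type) [Fintype V] [DecidableEq V] (p : I) (Q : SimpleGraph V → Prop) :
    ℝ := (binomialRandom V p).real {G | Q G}

theorem pr_mono {p : I} {Q R : SimpleGraph V → Prop} (h : ∀ G, Q G → R G) :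
    pr V p Q ≤ pr V p R := by
  unfold pr
  exact measureReal_mono (fun G hG => h G hG)

theorem pr_nonneg (p : I) (Q : SimpleGraph V → Prop) : 0 ≤ pr V p Q := measureReal_nonneg

theorem pr_or {p : I} {Q R : SimpleGraph V → Prop} :
    pr V p (fun G => Q G ∨ R G) ≤ pr V p Q + pr V p R := by
  unfold pr
  exact measureReal_union_le _ _

theorem pr_false (p : I) : pr V p (fun _ => False) = 0 := by
  unfold pr
  simp

theorem pr_exists {ι : Type*} {p : I} (S : Finset ι) (Q : ι → SimpleGraph V → Prop) :
    pr V p (fun G => ∃ i ∈ S, Q i G) ≤ ∑ i ∈ S, pr V p (Q i) := by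
  classical
  induction S using Finset.induction_on with
  | empty =>
    simp only [Finset.notMem_empty, false_and, exists_false, Finset.sum_empty]
    rw [pr_false]
  | insert a S ha ih =>
    rw [Finset.sum_insert ha]
    refine le_trans (pr_mono (R := fun G => Q a G ∨ ∃ i ∈ S, Q i G) ?_) (le_trans pr_or ?_)
    · rintro G ⟨i, hi, hQ⟩
      rcases mem_insert.1 hi with rfl | hi
      · exact Or.inl hQ
      · exact Or.inr ⟨i, hi, hQ⟩
    · exact add_le_add_right ih _

/-- edges inside a vertex set -/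
def ed (A : Finset V) : Finset (Sym2 V) := A.offDiag.image (Function.uncurry Sym2.mk)

theorem mk_mem_ed {A : Finset V} {a b : V} : s(a, b) ∈ ed A ↔ a ∈ A ∧ b ∈ A ∧ a ≠ b := by
  unfold ed
  rw [mem_image]
  constructor
  · rintro ⟨⟨x, y⟩, hxy, h⟩
    rw [mem_offDiag] at hxy
    have h' : s(x, y) = s(a, b) := h
    rcases Sym2.eq_iff.1 h' with ⟨rfl, rfl⟩ | ⟨rfl, rfl⟩
    · exact hxy
    · exact ⟨hxy.2.1, hxy.1, hxy.2.2.symm⟩
  · intro h
    exact ⟨(a, b), mem_offDiag.2 h, rfl⟩

theorem card_ed (A : Finset V) : (ed A).card = A.card.choose 2 := by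
  unfold ed
  exact Sym2.card_image_offDiag A

theorem ed_inter (A B : Finset V) : ed A ∩ ed B = ed (A ∩ B) := by
  ext e
  induction e using Sym2.ind with
  | _ a b =>
    rw [mem_inter, mk_mem_ed, mk_mem_ed, mk_mem_ed, mem_inter, mem_inter]
    tauto

theorem ed_mono {A B : Finset V} (h : A ⊆ B) : ed A ⊆ ed B := by
  intro e
  induction e using Sym2.ind with
  | _ a b =>
    rw [mk_mem_ed, mk_mem_ed]
    rintro ⟨h1, h2, h3⟩
    exact ⟨h h1, h h2, h3⟩

theorem ed_subset_of_clique {G : SimpleGraph V} {A : Finset V} (h : G.IsClique A) :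
    (ed A : Set (Sym2 V)) ⊆ G.edgeSet := by
  intro e he
  have he := Finset.mem_coe.1 he
  induction e using Sym2.ind with
  | _ a b =>
    rw [mk_mem_ed] at he
    rw [SimpleGraph.mem_edgeSet]
    exact h he.1 he.2.1 he.2.2

theorem pr_edges (p : I) (F : Finset (Sym2 V)) :
    pr V p (fun G => (F : Set (Sym2 V)) ⊆ G.edgeSet) ≤ (p : ℝ) ^ F.card := by
  have hp : (p : ℝ) ^ F.card = ((toNNReal p : ENNReal) ^ F.card).toReal := by
    rw [ENNReal.toReal_pow]
    rfl
  rw [hp]
  unfold pr
  rw [measureReal_def]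
  apply ENNReal.toReal_mono (by simp)
  rw [binomialRandom_apply]
  refine le_trans (measure_mono (t := Set.pi (F : Set (Sym2 V)) (fun _ => {True})) ?_) ?_
  · rintro f ⟨G, hG, rfl⟩ e he
    simp only [Set.mem_singleton_iff, eq_iff_iff, iff_true]
    exact hG he
  · rw [Measure.infinitePi_pi _ (fun i _ => MeasurableSet.singleton _)]
    refine le_trans (Finset.prod_le_pow_card F _ (toNNReal p : ENNReal) ?_) (le_refl _)
    intro e _
    simp only [Measure.coe_add, Measure.coe_smul, Pi.add_apply, Pi.smul_apply]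
    rw [Measure.dirac_apply' _ (MeasurableSet.singleton _),
      Measure.dirac_apply' _ (MeasurableSet.singleton _)]
    by_cases hd : e.IsDiag
    · simp [Set.indicator, hd]
    · simp [Set.indicator, hd]

end Pool.Agent.Lib.MP_a33257_co
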