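import Mathlib
import Pool.Agent.Lib.MP_a33257_co.Prob

namespace Pool.Agent.Lib.MP_a33257_co

open Finset MeasureTheory ProbabilityTheory unitInterval SimpleGraph

set_option linter.unusedSectionVars false

variable {V : Type} [Fintype V] [DecidableEq V]

open Classical in
/-- edges of `G` inside `U` -/
noncomputable def edU (G : SimpleGraph V) (U : Finset V) : Finset (Sym2 V) :=
  (ed U).filter (fun e => e ∈ G.edgeSet)

theorem mk_mem_edU {G : SimpleGraph V} {U : Finset V} {a b : V} :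
    s(a, b) ∈ edU G U ↔ a ∈ U ∧ b ∈ U ∧ G.Adj a b := by
  classical
  unfold edU
  rw [mem_filter, mk_mem_ed, SimpleGraph.mem_edgeSet]
  constructor
  · rintro ⟨⟨h1, h2, _⟩, h3⟩
    exact ⟨h1, h2, h3⟩
  · rintro ⟨h1, h2, h3⟩
    exact ⟨⟨h1, h2, h3.ne⟩, h3⟩

theorem sum_dg (G : SimpleGraph V) (U : Finset V) :
    ∑ v ∈ U, dg G U v = 2 * (edU G U).card := by
  classical
  have h1 := Finset.sum_card_bipartiteAbove_eq_sum_card_bipartiteBelow
      (s := U) (t := edU G U) (fun v e => v ∈ e)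
  have h2 : ∀ v ∈ U, ((edU G U).bipartiteAbove (fun v e => v ∈ e) v).card = dg G U v := by
    intro v hv
    symm
    unfold dg
    apply Finset.card_bij (fun w _ => s(v, w))
    · intro w hw
      rw [mem_nbh] at hw
      rw [Finset.mem_bipartiteAbove, mk_mem_edU]
      exact ⟨⟨hv, hw.1, hw.2⟩, Sym2.mem_mk_left _ _⟩
    · intro a _ b _ hab
      exact Sym2.congr_right.1 hab
    · intro e he
      rw [Finset.mem_bipartiteAbove] at he
      obtain ⟨he, hve⟩ := he
      induction e using Sym2.ind with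
      | _ a b =>
        rw [mk_mem_edU] at he
        rcases Sym2.mem_iff.1 hve with rfl | rfl
        · exact ⟨b, mem_nbh.2 ⟨he.2.1, he.2.2⟩, rfl⟩
        · exact ⟨a, mem_nbh.2 ⟨he.1, he.2.2.symm⟩, Sym2.eq_swap⟩
  have h3 : ∀ e ∈ edU G U, (U.bipartiteBelow (fun v e => v ∈ e) e).card = 2 := by
    intro e he
    induction e using Sym2.ind with
    | _ a b =>
      rw [mk_mem_edU] at he
      have : U.bipartiteBelow (fun v e => v ∈ e) s(a, b) = {a, b} := by
        ext x
        rw [Finset.mem_bipartiteBelow, mem_insert, mem_singleton, Sym2.mem_iff]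
        constructor
        · exact fun h => h.2
        · rintro (rfl | rfl)
          · exact ⟨he.1, Or.inl rfl⟩
          · exact ⟨he.2.1, Or.inr rfl⟩
      rw [this, Finset.card_pair he.2.2.ne]
  rw [Finset.sum_congr rfl h2, Finset.sum_congr rfl h3, Finset.sum_const, smul_eq_mul] at h1
  rw [h1, mul_comm]

/-- the threshold number of edges -/
def e0 (k u : ℕ) : ℕ := ((6 * k + 1) * u + 11) / 12

theorem dense_bound (p : I) (k s : ℕ) :
    pr V p (fun G => ∃ U : Finset V, U.Nonempty ∧ U.card ≤ s ∧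
      (6 * k + 1) * U.card ≤ 6 * ∑ v ∈ U, dg G U v) ≤
    ∑ u ∈ Icc 1 s, ((Fintype.card V).choose u : ℝ) *
      (((u.choose 2).choose (e0 k u) : ℝ) * (p : ℝ) ^ e0 k u) := by
  classical
  refine le_trans (pr_mono (R := fun G => ∃ u ∈ Icc 1 s, ∃ U ∈ (univ : Finset V).powersetCard u,
    ∃ F ∈ (ed U).powersetCard (e0 k u), (F : Set (Sym2 V)) ⊆ G.edgeSet) ?_) ?_
  · rintro G ⟨U, hne, hUs, hU⟩
    refine ⟨U.card, mem_Icc.2 ⟨Finset.card_pos.2 hne, hUs⟩, U,
      mem_powersetCard.2 ⟨subset_univ _, rfl⟩, ?_⟩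
    rw [sum_dg] at hU
    have h1 : e0 k U.card ≤ (edU G U).card := by
      unfold e0
      omega
    obtain ⟨F, hF1, hF2⟩ := Finset.exists_subset_card_eq h1
    refine ⟨F, mem_powersetCard.2 ⟨hF1.trans (Finset.filter_subset _ _), hF2⟩, ?_⟩
    intro e he
    exact (mem_filter.1 (hF1 (Finset.mem_coe.1 he))).2
  · refine le_trans (pr_exists _ _) (Finset.sum_le_sum ?_)
    intro u _
    refine le_trans (pr_exists _ _) ?_
    have h1 : ∀ U ∈ (univ : Finset V).powersetCard u,
        pr V p (fun G => ∃ F ∈ (ed U).powersetCard (e0 k u),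
          (F : Set (Sym2 V)) ⊆ G.edgeSet) ≤
        ((u.choose 2).choose (e0 k u) : ℝ) * (p : ℝ) ^ e0 k u := by
      intro U hU
      rw [mem_powersetCard] at hU
      refine le_trans (pr_exists _ _) ?_
      have h2 : ∀ F ∈ (ed U).powersetCard (e0 k u),
          pr V p (fun G => (F : Set (Sym2 V)) ⊆ G.edgeSet) ≤ (p : ℝ) ^ e0 k u := by
        intro F hF
        rw [mem_powersetCard] at hF
        rw [← hF.2]
        exact pr_edges p F
      refine le_trans (Finset.sum_le_sum h2) ?_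
      rw [Finset.sum_const, Finset.card_powersetCard, nsmul_eq_mul, card_ed, hU.2]
    refine le_trans (Finset.sum_le_sum h1) ?_
    rw [Finset.sum_const, Finset.card_powersetCard, nsmul_eq_mul, Finset.card_univ]

/-- combination: probability that Breaker does not win -/
theorem maker_bound (p : I) {k b m : ℕ} (hk : 10 ≤ k) (hb : 1 ≤ b) :
    pr V p (fun G => ¬ BreakerWinsFrom G k b ∅ ∅) ≤
      pr V p (fun G => ∃ A, G.IsNClique k A ∧ Run G k m ∅ A) +
      pr V p (fun G => ∃ U : Finset V, U.Nonempty ∧ U.card ≤ k + m * k ∧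
        (6 * k + 1) * U.card ≤ 6 * ∑ v ∈ U, dg G U v) := by
  refine le_trans (pr_mono ?_) pr_or
  intro G hG
  by_contra hcon
  rw [not_or] at hcon
  apply hG
  apply breaker_of_sparse (m := m) hk hb
  · intro A hA hrun
    exact hcon.1 ⟨A, hA, hrun⟩
  · intro U hU hUc
    by_contra h
    exact hcon.2 ⟨U, hU, hUc, by omega⟩

end Pool.Agent.Lib.MP_a33257_co
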