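import Mathlib
import Pool.Agent.Lib.MP_a33257_co.Prob

namespace Pool.Agent.Lib.MP_a33257_co

open Finset MeasureTheory ProbabilityTheory unitInterval SimpleGraph

set_option linter.unusedSectionVars false

variable {V : Type} [Fintype V] [DecidableEq V]

open Classical in
/-- candidate cliques at vertex `w` -/
noncomputable def cand (V : Type) [Fintype V] [DecidableEq V] (k : ℕ) (W : Finset V) (w : V) :
    Finset (Finset V) :=
  (univ : Finset (Finset V)).filter (fun A => A.card = k ∧ w ∈ A ∧ ¬ A ⊆ W)

theorem run_bound (p : I) (k s : ℕ)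
    (hΦ : ∀ W : Finset V, W.card ≤ s → ∀ w ∈ W,
      ∑ A ∈ cand V k W w, (p : ℝ) ^ (k.choose 2 - (A ∩ W).card.choose 2) *
        2 ^ (k - (A ∩ W).card) ≤ 1 / 4) :
    ∀ (m : ℕ) (P W : Finset V) (F : Finset (Sym2 V)), P ⊆ W → F ⊆ ed W → W.card + m * k ≤ s →
      pr V p (fun G => (F : Set (Sym2 V)) ⊆ G.edgeSet ∧ Run G k m P W) ≤
        (p : ℝ) ^ F.card * (3 / 4) ^ m * 2 ^ (W.card - P.card) := by
  have hp0 : (0:ℝ) ≤ p := p.2.1
  have hp1 : (p:ℝ) ≤ 1 := p.2.2
  intro m
  induction m with
  | zero =>
    intro P W F hPW hF _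
    refine le_trans (pr_mono (R := fun G => (F : Set (Sym2 V)) ⊆ G.edgeSet) (fun G h => h.1)) ?_
    refine le_trans (pr_edges p F) ?_
    rw [pow_zero, mul_one]
    have h1 : (1:ℝ) ≤ 2 ^ (W.card - P.card) := one_le_pow₀ (by norm_num)
    have h2 : (0:ℝ) ≤ (p:ℝ) ^ F.card := pow_nonneg hp0 _
    nlinarith
  | succ m ih =>
    intro P W F hPW hF hs
    by_cases hne : (W \ P).Nonempty
    · set w := hne.choose with hw
      have hwm : w ∈ W ∧ w ∉ P := mem_sdiff.1 hne.choose_spec
      have hcard : P.card < W.card := by
        apply Finset.card_lt_card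
        rw [Finset.ssubset_iff_of_subset hPW]
        exact ⟨w, hwm⟩
      -- split the event
      have hsplit : pr V p (fun G => (F : Set (Sym2 V)) ⊆ G.edgeSet ∧ Run G k (m + 1) P W) ≤
          pr V p (fun G => (F : Set (Sym2 V)) ⊆ G.edgeSet ∧ Run G k m (insert w P) W) +
          ∑ A ∈ cand V k W w,
            pr V p (fun G => ((F ∪ ed A : Finset (Sym2 V)) : Set (Sym2 V)) ⊆ G.edgeSet ∧
              Run G k m P (W ∪ A)) := by
        refine le_trans (pr_mono (R := fun G =>
          ((F : Set (Sym2 V)) ⊆ G.edgeSet ∧ Run G k m (insert w P) W) ∨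
          ∃ A ∈ cand V k W w, ((F ∪ ed A : Finset (Sym2 V)) : Set (Sym2 V)) ⊆ G.edgeSet ∧
              Run G k m P (W ∪ A)) ?_) (le_trans pr_or (add_le_add_right (pr_exists _ _) _))
        rintro G ⟨hG, h, hrun⟩
        rcases hrun with hrun | ⟨A, hA1, hA2, hA3, hA4⟩
        · exact Or.inl ⟨hG, hrun⟩
        · right
          refine ⟨A, ?_, ?_, hA4⟩
          · unfold cand
            rw [mem_filter]
            exact ⟨mem_univ _, hA1.card_eq, hA2, hA3⟩
          · rw [Finset.coe_union]
            exact Set.union_subset hG (ed_subset_of_clique hA1.isClique)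
      have hb1 : pr V p (fun G => (F : Set (Sym2 V)) ⊆ G.edgeSet ∧ Run G k m (insert w P) W) ≤
          (p : ℝ) ^ F.card * (3 / 4) ^ m * 2 ^ (W.card - P.card) * (1 / 2) := by
        refine le_trans (ih (insert w P) W F ?_ hF (by nlinarith)) ?_
        · intro x hx
          rcases mem_insert.1 hx with rfl | hx
          · exact hwm.1
          · exact hPW hx
        · rw [Finset.card_insert_of_notMem hwm.2]
          have : W.card - P.card = (W.card - (P.card + 1)) + 1 := by omega
          rw [this, pow_succ]
          apply le_of_eq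
          ring
      have hb2 : ∀ A ∈ cand V k W w,
          pr V p (fun G => ((F ∪ ed A : Finset (Sym2 V)) : Set (Sym2 V)) ⊆ G.edgeSet ∧
              Run G k m P (W ∪ A)) ≤
          (p : ℝ) ^ F.card * (3 / 4) ^ m * 2 ^ (W.card - P.card) *
            ((p : ℝ) ^ (k.choose 2 - (A ∩ W).card.choose 2) * 2 ^ (k - (A ∩ W).card)) := by
        intro A hA
        unfold cand at hA
        rw [mem_filter] at hA
        obtain ⟨_, hAc, hwA, hAW⟩ := hA
        have hWA : (W ∪ A).card = W.card + (k - (A ∩ W).card) := by
          have h1 := Finset.card_union_add_card_inter W A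
          rw [Finset.inter_comm] at h1
          have h2 : (A ∩ W).card ≤ A.card := Finset.card_le_card inter_subset_left
          omega
        refine le_trans (ih P (W ∪ A) (F ∪ ed A) (hPW.trans subset_union_left) ?_ ?_) ?_
        · intro e he
          rcases mem_union.1 he with he | he
          · exact ed_mono subset_union_left (hF he)
          · exact ed_mono subset_union_right he
        · rw [hWA]
          have : (k - (A ∩ W).card) ≤ k := Nat.sub_le _ _
          nlinarith
        · have hFc : F.card + (k.choose 2 - (A ∩ W).card.choose 2) ≤ (F ∪ ed A).card := by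
            have h1 : F ∪ ed A = F ∪ (ed A \ ed W) ∪ ed A := by
              ext e
              simp only [mem_union, mem_sdiff]
              tauto
            have h2 : (F ∪ (ed A \ ed W)).card ≤ (F ∪ ed A).card := by
              apply Finset.card_le_card
              intro e he
              rw [mem_union] at he ⊢
              rcases he with he | he
              · exact Or.inl he
              · exact Or.inr (mem_sdiff.1 he).1
            have h3 : (F ∪ (ed A \ ed W)).card = F.card + (ed A \ ed W).card := by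
              apply Finset.card_union_of_disjoint
              rw [Finset.disjoint_left]
              intro e he he'
              exact (mem_sdiff.1 he').2 (hF he)
            have h4 : (ed A \ ed W).card = (ed A).card - (ed A ∩ ed W).card := by
              have := Finset.card_sdiff_add_card_inter (ed A) (ed W)
              omega
            rw [ed_inter, card_ed, card_ed, hAc] at h4
            omega
          have h5 : (p : ℝ) ^ (F ∪ ed A).card ≤
              (p : ℝ) ^ F.card * (p : ℝ) ^ (k.choose 2 - (A ∩ W).card.choose 2) := by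
            rw [← pow_add]
            exact pow_le_pow_of_le_one hp0 hp1 hFc
          have h6 : (W ∪ A).card - P.card = (W.card - P.card) + (k - (A ∩ W).card) := by omega
          rw [h6, pow_add]
          have h7 : (0:ℝ) ≤ (3 / 4) ^ m * (2 ^ (W.card - P.card) * 2 ^ (k - (A ∩ W).card)) := by
            positivity
          calc (p : ℝ) ^ (F ∪ ed A).card * (3 / 4) ^ m *
                (2 ^ (W.card - P.card) * 2 ^ (k - (A ∩ W).card))
              = (p : ℝ) ^ (F ∪ ed A).card * ((3 / 4) ^ m *
                (2 ^ (W.card - P.card) * 2 ^ (k - (A ∩ W).card))) := by ring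
            _ ≤ ((p : ℝ) ^ F.card * (p : ℝ) ^ (k.choose 2 - (A ∩ W).card.choose 2)) *
                ((3 / 4) ^ m * (2 ^ (W.card - P.card) * 2 ^ (k - (A ∩ W).card))) :=
                mul_le_mul_of_nonneg_right h5 h7
            _ = _ := by ring
      have hb3 := Finset.sum_le_sum hb2
      rw [← Finset.mul_sum] at hb3
      have hb4 := hΦ W (by nlinarith) w hwm.1
      have h0 : (0:ℝ) ≤ (p : ℝ) ^ F.card * (3 / 4) ^ m * 2 ^ (W.card - P.card) := by positivity
      have hb5 := mul_le_mul_of_nonneg_left hb4 h0
      rw [pow_succ]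
      calc _ ≤ _ := hsplit
        _ ≤ (p : ℝ) ^ F.card * (3 / 4) ^ m * 2 ^ (W.card - P.card) * (1 / 2) +
            (p : ℝ) ^ F.card * (3 / 4) ^ m * 2 ^ (W.card - P.card) * (1 / 4) :=
            add_le_add hb1 (hb3.trans hb5)
        _ = _ := by ring
    · have : pr V p (fun G => (F : Set (Sym2 V)) ⊆ G.edgeSet ∧ Run G k (m + 1) P W) ≤
          pr V p (fun _ => False) := by
        apply pr_mono
        rintro G ⟨_, h, _⟩
        exact hne h
      rw [pr_false] at this
      refine le_trans this ?_
      positivity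

/-- probability that some exploration is long -/
theorem long_bound (p : I) (k s m : ℕ)
    (hΦ : ∀ W : Finset V, W.card ≤ s → ∀ w ∈ W,
      ∑ A ∈ cand V k W w, (p : ℝ) ^ (k.choose 2 - (A ∩ W).card.choose 2) *
        2 ^ (k - (A ∩ W).card) ≤ 1 / 4) (hs : k + m * k ≤ s) :
    pr V p (fun G => ∃ A, G.IsNClique k A ∧ Run G k m ∅ A) ≤
      ((Fintype.card V).choose k : ℝ) * ((p : ℝ) ^ (k.choose 2) * (3 / 4) ^ m * 2 ^ k) := by
  refine le_trans (pr_mono (R := fun G => ∃ A ∈ (univ : Finset V).powersetCard k,
    ((ed A : Finset (Sym2 V)) : Set (Sym2 V)) ⊆ G.edgeSet ∧ Run G k m ∅ A) ?_) ?_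
  · rintro G ⟨A, hA, hrun⟩
    refine ⟨A, ?_, ed_subset_of_clique hA.isClique, hrun⟩
    rw [mem_powersetCard]
    exact ⟨subset_univ _, hA.card_eq⟩
  · refine le_trans (pr_exists _ _) ?_
    have h1 : ∀ A ∈ (univ : Finset V).powersetCard k,
        pr V p (fun G => ((ed A : Finset (Sym2 V)) : Set (Sym2 V)) ⊆ G.edgeSet ∧
          Run G k m ∅ A) ≤ (p : ℝ) ^ (k.choose 2) * (3 / 4) ^ m * 2 ^ k := by
      intro A hA
      rw [mem_powersetCard] at hA
      have := run_bound p k s hΦ m ∅ A (ed A) (Finset.empty_subset _) (le_refl _)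
        (by rw [hA.2]; exact hs)
      rw [card_ed, hA.2, Finset.card_empty, Nat.sub_zero] at this
      exact this
    refine le_trans (Finset.sum_le_sum h1) ?_
    rw [Finset.sum_const, Finset.card_powersetCard, nsmul_eq_mul, Finset.card_univ]

end Pool.Agent.Lib.MP_a33257_co
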