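import Mathlib
import Pool.Agent.Lib.MP_a33257_co.RunBound
import Pool.Agent.Lib.MP_a33257_co.DenseBound

namespace Pool.Agent.Lib.MP_a33257_co

open Finset MeasureTheory ProbabilityTheory unitInterval SimpleGraph

set_option linter.unusedSectionVars false

variable {V : Type} [Fintype V] [DecidableEq V]

theorem card_cand_le (k : ℕ) (W : Finset V) (w : V) (hw : w ∈ W) (j : ℕ) :
    ((cand V k W w).filter (fun A => (A ∩ W).card = j)).card ≤
      (W.card).choose (j - 1) * (Fintype.card V).choose (k - j) := by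
  classical
  have h1 : (W.card).choose (j - 1) * (Fintype.card V).choose (k - j) =
      (W.powersetCard (j - 1) ×ˢ (univ : Finset V).powersetCard (k - j)).card := by
    rw [Finset.card_product, Finset.card_powersetCard, Finset.card_powersetCard,
      Finset.card_univ]
  rw [h1]
  apply Finset.card_le_card_of_injOn (fun A => ((A ∩ W).erase w, A \ W))
  · intro A hA
    have hA := Finset.mem_coe.1 hA
    unfold cand at hA
    rw [mem_filter, mem_filter] at hA
    obtain ⟨⟨_, hAc, hwA, _⟩, hj⟩ := hA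
    apply Finset.mem_coe.2
    rw [Finset.mem_product, mem_powersetCard, mem_powersetCard]
    refine ⟨⟨?_, ?_⟩, subset_univ _, ?_⟩
    · exact (Finset.erase_subset _ _).trans inter_subset_right
    · rw [Finset.card_erase_of_mem (mem_inter.2 ⟨hwA, hw⟩), hj]
    · have := Finset.card_sdiff_add_card_inter A W
      show (A \ W).card = k - j
      omega
  · intro A hA B hB hAB
    have hA := Finset.mem_coe.1 hA
    have hB := Finset.mem_coe.1 hB
    unfold cand at hA hB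
    rw [mem_filter, mem_filter] at hA hB
    obtain ⟨⟨_, _, hwA, _⟩, _⟩ := hA
    obtain ⟨⟨_, _, hwB, _⟩, _⟩ := hB
    have h1 : (A ∩ W).erase w = (B ∩ W).erase w := congrArg Prod.fst hAB
    have h2 : A \ W = B \ W := congrArg Prod.snd hAB
    have h3 : A ∩ W = B ∩ W := by
      rw [← Finset.insert_erase (mem_inter.2 ⟨hwA, hw⟩), h1,
        Finset.insert_erase (mem_inter.2 ⟨hwB, hw⟩)]
    rw [← Finset.sdiff_union_inter A W, ← Finset.sdiff_union_inter B W, h2, h3]

theorem two_mul_choose_sub {k j : ℕ} (hj1 : 1 ≤ j) (hj : j ≤ k) :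
    2 * (k.choose 2 - j.choose 2) = (k - j) * (k + j - 1) := by
  have h1 : 2 * k.choose 2 = k * (k - 1) := by
    rw [Nat.choose_two_right, Nat.mul_div_cancel' (Nat.even_mul_pred_self k).two_dvd]
  have h2 : 2 * j.choose 2 = j * (j - 1) := by
    rw [Nat.choose_two_right, Nat.mul_div_cancel' (Nat.even_mul_pred_self j).two_dvd]
  obtain ⟨a, rfl⟩ : ∃ a, k = j + a := ⟨k - j, by omega⟩
  obtain ⟨b, rfl⟩ : ∃ b, j = b + 1 := ⟨j - 1, by omega⟩
  rw [Nat.mul_sub, h1, h2]
  have e1 : b + 1 + a - 1 = b + a := by omega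
  have e2 : b + 1 - 1 = b := by omega
  have e3 : b + 1 + a - (b + 1) = a := by omega
  have e4 : b + 1 + a + (b + 1) - 1 = a + 2 * b + 1 := by omega
  rw [e1, e2, e3, e4]
  apply Nat.sub_eq_of_eq_add
  ring

theorem phi_bound (p : I) {k s : ℕ} (hk : 2 ≤ k) (hs1 : 1 ≤ s) {c t : ℝ} (hc : 1 ≤ c) (ht0 : 0 < t)
    (ht1 : t ≤ 1) (hnt : (Fintype.card V : ℝ) * t ^ k = 1) (hp : (p : ℝ) ≤ c * t ^ 2)
    (W : Finset V) (hWs : W.card ≤ s) (w : V) (hw : w ∈ W) :
    ∑ A ∈ cand V k W w, (p : ℝ) ^ (k.choose 2 - (A ∩ W).card.choose 2) *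
        2 ^ (k - (A ∩ W).card) ≤
      c ^ (k.choose 2) * 2 ^ (k - 1) / ((k - 1).factorial : ℝ) +
        k * ((s : ℝ) ^ k * c ^ (k.choose 2) * 2 ^ k * t) := by
  classical
  have hp0 : (0:ℝ) ≤ p := p.2.1
  set n := Fintype.card V with hn
  have hmaps : ∀ A ∈ cand V k W w, (A ∩ W).card ∈ Icc 1 (k - 1) := by
    intro A hA
    unfold cand at hA
    rw [mem_filter] at hA
    obtain ⟨_, hAc, hwA, hAW⟩ := hA
    rw [mem_Icc]
    constructor
    · exact Finset.card_pos.2 ⟨w, mem_inter.2 ⟨hwA, hw⟩⟩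
    · have h1 : (A ∩ W).card < A.card := by
        apply Finset.card_lt_card
        rw [Finset.ssubset_iff_subset_ne]
        refine ⟨inter_subset_left, fun h => hAW ?_⟩
        rw [← h]; exact inter_subset_right
      omega
  rw [← Finset.sum_fiberwise_of_maps_to hmaps]
  -- termwise bound
  have hterm : ∀ j ∈ Icc 1 (k - 1),
      ∑ A ∈ (cand V k W w).filter (fun A => (A ∩ W).card = j),
        (p : ℝ) ^ (k.choose 2 - (A ∩ W).card.choose 2) * 2 ^ (k - (A ∩ W).card) ≤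
      (if j = 1 then c ^ (k.choose 2) * 2 ^ (k - 1) / ((k - 1).factorial : ℝ) else 0) +
        (s : ℝ) ^ k * c ^ (k.choose 2) * 2 ^ k * t := by
    intro j hj
    rw [mem_Icc] at hj
    have h1 : ∀ A ∈ (cand V k W w).filter (fun A => (A ∩ W).card = j),
        (p : ℝ) ^ (k.choose 2 - (A ∩ W).card.choose 2) * 2 ^ (k - (A ∩ W).card) ≤
        (c * t ^ 2) ^ (k.choose 2 - j.choose 2) * 2 ^ (k - j) := by
      intro A hA
      rw [(mem_filter.1 hA).2]
      apply mul_le_mul_of_nonneg_right _ (by positivity)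
      exact pow_le_pow_left₀ hp0 hp _
    refine le_trans (Finset.sum_le_sum h1) ?_
    rw [Finset.sum_const, nsmul_eq_mul]
    have h2 : (((cand V k W w).filter (fun A => (A ∩ W).card = j)).card : ℝ) ≤
        ((W.card).choose (j - 1) : ℝ) * (n.choose (k - j) : ℝ) := by
      exact_mod_cast card_cand_le k W w hw j
    have hq : (0:ℝ) ≤ (c * t ^ 2) ^ (k.choose 2 - j.choose 2) * 2 ^ (k - j) := by positivity
    refine le_trans (mul_le_mul_of_nonneg_right h2 hq) ?_
    have h3 : (c * t ^ 2) ^ (k.choose 2 - j.choose 2) =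
        c ^ (k.choose 2 - j.choose 2) * (t ^ (k * (k - j)) * t ^ ((k - j) * (j - 1))) := by
      rw [mul_pow, ← pow_mul, two_mul_choose_sub hj.1 (by omega), ← pow_add]
      congr 2
      obtain ⟨b, rfl⟩ : ∃ b, j = b + 1 := ⟨j - 1, by omega⟩
      have e1 : k + (b + 1) - 1 = k + b := by omega
      have e2 : b + 1 - 1 = b := by omega
      rw [e1, e2]
      ring
    have h4 : (n : ℝ) ^ (k - j) * t ^ (k * (k - j)) = 1 := by
      rw [pow_mul, ← mul_pow, hnt, one_pow]
    have h5 : c ^ (k.choose 2 - j.choose 2) ≤ c ^ (k.choose 2) :=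
      pow_le_pow_right₀ hc (Nat.sub_le _ _)
    have hs0 : (1:ℝ) ≤ s := by exact_mod_cast hs1
    rw [h3]
    by_cases hj1 : j = 1
    · subst hj1
      rw [if_pos rfl]
      have h6 : (n.choose (k - 1) : ℝ) ≤ (n : ℝ) ^ (k - 1) / ((k - 1).factorial : ℝ) :=
        Nat.choose_le_pow_div (k - 1) n
      have h7 : (0:ℝ) ≤ (s : ℝ) ^ k * c ^ (k.choose 2) * 2 ^ k * t := by positivity
      refine le_trans ?_ (le_add_of_nonneg_right h7)
      have hfac : (0:ℝ) < ((k - 1).factorial : ℝ) := by exact_mod_cast Nat.factorial_pos _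
      simp only [Nat.sub_self, Nat.choose_zero_right, Nat.cast_one, one_mul, mul_zero, pow_zero,
        mul_one]
      have h8 : (0:ℝ) ≤ c ^ (k.choose 2 - Nat.choose 1 2) * t ^ (k * (k - 1)) * 2 ^ (k - 1) := by
        positivity
      calc (n.choose (k - 1) : ℝ) *
            (c ^ (k.choose 2 - Nat.choose 1 2) * t ^ (k * (k - 1)) * 2 ^ (k - 1))
          ≤ (n : ℝ) ^ (k - 1) / ((k - 1).factorial : ℝ) *
            (c ^ (k.choose 2 - Nat.choose 1 2) * t ^ (k * (k - 1)) * 2 ^ (k - 1)) :=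
            mul_le_mul_of_nonneg_right h6 h8
        _ = ((n : ℝ) ^ (k - 1) * t ^ (k * (k - 1))) * c ^ (k.choose 2 - Nat.choose 1 2) *
            2 ^ (k - 1) / ((k - 1).factorial : ℝ) := by ring
        _ = c ^ (k.choose 2 - Nat.choose 1 2) * 2 ^ (k - 1) / ((k - 1).factorial : ℝ) := by
            rw [h4, one_mul]
        _ ≤ _ := by
            apply div_le_div_of_nonneg_right _ hfac.le
            exact mul_le_mul_of_nonneg_right h5 (by positivity)
    · rw [if_neg hj1, zero_add]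
      have h6 : (n.choose (k - j) : ℝ) ≤ (n : ℝ) ^ (k - j) := by
        exact_mod_cast Nat.choose_le_pow n (k - j)
      have h7 : ((W.card).choose (j - 1) : ℝ) ≤ (s : ℝ) ^ k := by
        have a1 : ((W.card).choose (j - 1) : ℝ) ≤ (W.card : ℝ) ^ (j - 1) := by
          exact_mod_cast Nat.choose_le_pow W.card (j - 1)
        have a2 : (W.card : ℝ) ^ (j - 1) ≤ (s : ℝ) ^ (j - 1) :=
          pow_le_pow_left₀ (by positivity) (by exact_mod_cast hWs) _
        have a3 : (s : ℝ) ^ (j - 1) ≤ (s : ℝ) ^ k := pow_le_pow_right₀ hs0 (by omega)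
        linarith
      have h8 : t ^ ((k - j) * (j - 1)) ≤ t := by
        have : t ^ ((k - j) * (j - 1)) ≤ t ^ 1 := by
          apply pow_le_pow_of_le_one ht0.le ht1
          apply Nat.one_le_iff_ne_zero.2
          apply Nat.mul_ne_zero <;> omega
        simpa using this
      have h9 : (2:ℝ) ^ (k - j) ≤ 2 ^ k := pow_le_pow_right₀ (by norm_num) (by omega)
      calc ((W.card).choose (j - 1) : ℝ) * (n.choose (k - j) : ℝ) *
            (c ^ (k.choose 2 - j.choose 2) * (t ^ (k * (k - j)) * t ^ ((k - j) * (j - 1))) *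
              2 ^ (k - j))
          ≤ (s : ℝ) ^ k * (n : ℝ) ^ (k - j) *
            (c ^ (k.choose 2) * (t ^ (k * (k - j)) * t) * 2 ^ k) := by
            gcongr
        _ = (s : ℝ) ^ k * c ^ (k.choose 2) * 2 ^ k * t *
            ((n : ℝ) ^ (k - j) * t ^ (k * (k - j))) := by ring
        _ = _ := by rw [h4, mul_one]
  refine le_trans (Finset.sum_le_sum hterm) ?_
  rw [Finset.sum_add_distrib, Finset.sum_ite_eq' (Icc 1 (k - 1)) 1, if_pos (by
    rw [mem_Icc]; omega), Finset.sum_const, nsmul_eq_mul]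
  apply add_le_add_right
  apply mul_le_mul_of_nonneg_right
  · have : (Icc 1 (k - 1)).card ≤ k := by simp
    exact_mod_cast this
  · positivity

/-- bound for the long explorations -/
theorem long_bound' (p : I) {k s m : ℕ} (hk : 2 ≤ k) (hs : k + m * k ≤ s)
    {c t : ℝ} (hc : 1 ≤ c) (ht0 : 0 < t)
    (ht1 : t ≤ 1) (hnt : (Fintype.card V : ℝ) * t ^ k = 1) (hp : (p : ℝ) ≤ c * t ^ 2)
    (hck : c ^ (k.choose 2) * 2 ^ (k - 1) / ((k - 1).factorial : ℝ) ≤ 1 / 8)
    (hst : k * ((s : ℝ) ^ k * c ^ (k.choose 2) * 2 ^ k * t) ≤ 1 / 8) :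
    pr V p (fun G => ∃ A, G.IsNClique k A ∧ Run G k m ∅ A) ≤
      (Fintype.card V : ℝ) * (c ^ (k.choose 2) * (3 / 4) ^ m * 2 ^ k) := by
  have hp0 : (0:ℝ) ≤ p := p.2.1
  refine le_trans (long_bound p k s m ?_ hs) ?_
  · intro W hW w hw
    have := phi_bound p hk (by omega) hc ht0 ht1 hnt hp W hW w hw
    linarith
  · have h1 : ((Fintype.card V).choose k : ℝ) ≤ (Fintype.card V : ℝ) ^ k := by
      exact_mod_cast Nat.choose_le_pow _ k
    have h2 : (p : ℝ) ^ (k.choose 2) ≤ (c * t ^ 2) ^ (k.choose 2) := pow_le_pow_left₀ hp0 hp _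
    have h3 : (c * t ^ 2) ^ (k.choose 2) = c ^ (k.choose 2) * (t ^ k) ^ (k - 1) := by
      rw [mul_pow, ← pow_mul, ← pow_mul, Nat.choose_two_right,
        Nat.mul_div_cancel' (Nat.even_mul_pred_self k).two_dvd]
    have h4 : (Fintype.card V : ℝ) ^ k * (t ^ k) ^ (k - 1) = (Fintype.card V : ℝ) := by
      obtain ⟨a, rfl⟩ : ∃ a, k = a + 1 := ⟨k - 1, by omega⟩
      have e : a + 1 - 1 = a := by omega
      rw [e]
      calc (Fintype.card V : ℝ) ^ (a + 1) * (t ^ (a + 1)) ^ a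
          = (Fintype.card V : ℝ) * ((Fintype.card V : ℝ) * t ^ (a + 1)) ^ a := by
            rw [mul_pow]; ring
        _ = _ := by rw [hnt, one_pow, mul_one]
    calc ((Fintype.card V).choose k : ℝ) * ((p : ℝ) ^ (k.choose 2) * (3 / 4) ^ m * 2 ^ k)
        ≤ (Fintype.card V : ℝ) ^ k * ((c * t ^ 2) ^ (k.choose 2) * (3 / 4) ^ m * 2 ^ k) := by
          gcongr
      _ = ((Fintype.card V : ℝ) ^ k * (t ^ k) ^ (k - 1)) *
          (c ^ (k.choose 2) * (3 / 4) ^ m * 2 ^ k) := by rw [h3]; ring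
      _ = _ := by rw [h4]

/-- bound for the dense sets -/
theorem dense_bound' (p : I) {k s : ℕ} {c t x z : ℝ} (hz0 : 0 ≤ z) (hz1 : z ≤ 1)
    (hz : (s : ℝ) ^ 2 * (c * t ^ 2) ≤ z ^ 12) (hct : 0 ≤ c * t ^ 2)
    (hx : (Fintype.card V : ℝ) * z ^ (6 * k + 1) ≤ x) (hx1 : x ≤ 1) (hp : (p : ℝ) ≤ c * t ^ 2) :
    pr V p (fun G => ∃ U : Finset V, U.Nonempty ∧ U.card ≤ s ∧
      (6 * k + 1) * U.card ≤ 6 * ∑ v ∈ U, dg G U v) ≤ s * x := by
  have hp0 : (0:ℝ) ≤ p := p.2.1
  have hx0 : 0 ≤ x := le_trans (by positivity) hx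
  refine le_trans (dense_bound p k s) ?_
  have hterm : ∀ u ∈ Icc 1 s, ((Fintype.card V).choose u : ℝ) *
      (((u.choose 2).choose (e0 k u) : ℝ) * (p : ℝ) ^ e0 k u) ≤ x := by
    intro u hu
    rw [mem_Icc] at hu
    have h1 : ((Fintype.card V).choose u : ℝ) ≤ (Fintype.card V : ℝ) ^ u := by
      exact_mod_cast Nat.choose_le_pow _ u
    have h2 : ((u.choose 2).choose (e0 k u) : ℝ) ≤ ((s : ℝ) ^ 2) ^ e0 k u := by
      have a1 : ((u.choose 2).choose (e0 k u) : ℝ) ≤ ((u.choose 2 : ℕ) : ℝ) ^ (e0 k u) := by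
        exact_mod_cast Nat.choose_le_pow _ (e0 k u)
      have a2 : ((u.choose 2 : ℕ) : ℝ) ≤ (s : ℝ) ^ 2 := by
        have : u.choose 2 ≤ s ^ 2 := (Nat.choose_le_pow u 2).trans (Nat.pow_le_pow_left hu.2 2)
        exact_mod_cast this
      exact a1.trans (pow_le_pow_left₀ (by positivity) a2 _)
    have h3 : (p : ℝ) ^ e0 k u ≤ (c * t ^ 2) ^ e0 k u := pow_le_pow_left₀ hp0 hp _
    have h4 : ((s : ℝ) ^ 2) ^ e0 k u * (c * t ^ 2) ^ e0 k u ≤ (z ^ (6 * k + 1)) ^ u := by
      rw [← mul_pow]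
      refine le_trans (pow_le_pow_left₀ (by positivity) hz _) ?_
      rw [← pow_mul, ← pow_mul]
      apply pow_le_pow_of_le_one hz0 hz1
      unfold e0
      omega
    calc ((Fintype.card V).choose u : ℝ) *
          (((u.choose 2).choose (e0 k u) : ℝ) * (p : ℝ) ^ e0 k u)
        ≤ (Fintype.card V : ℝ) ^ u * (((s : ℝ) ^ 2) ^ e0 k u * (c * t ^ 2) ^ e0 k u) := by
          gcongr
      _ ≤ (Fintype.card V : ℝ) ^ u * (z ^ (6 * k + 1)) ^ u := by gcongr
      _ = ((Fintype.card V : ℝ) * z ^ (6 * k + 1)) ^ u := by rw [mul_pow]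
      _ ≤ x ^ u := pow_le_pow_left₀ (by positivity) hx _
      _ ≤ x ^ 1 := pow_le_pow_of_le_one hx0 hx1 hu.1
      _ = x := pow_one x
  refine le_trans (Finset.sum_le_sum hterm) ?_
  rw [Finset.sum_const, nsmul_eq_mul]
  apply mul_le_mul_of_nonneg_right _ hx0
  simp

end Pool.Agent.Lib.MP_a33257_co
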