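import Mathlib
import Pool.Agent.Lib.MP_a33257_co.Phi

namespace Pool.Agent.Lib.MP_a33257_co

open Finset MeasureTheory ProbabilityTheory unitInterval SimpleGraph Filter Topology Asymptotics

set_option linter.unusedSectionVars false

/-- number of exploration moves -/
noncomputable def mm (n : ℕ) : ℕ := ⌈8 * Real.log n⌉₊

/-- size bound -/
noncomputable def ss (k n : ℕ) : ℕ := k + mm n * k

/-- the small parameter `n^{-1/k}` -/
noncomputable def tt (k n : ℕ) : ℝ := (n : ℝ) ^ (-(1:ℝ) / k)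

theorem tt_pow {k n : ℕ} (hk : 1 ≤ k) (hn : 1 ≤ n) : (n : ℝ) * tt k n ^ k = 1 := by
  have hn0 : (0:ℝ) < n := by exact_mod_cast hn
  have hk0 : (k:ℝ) ≠ 0 := by positivity
  unfold tt
  rw [← Real.rpow_natCast, ← Real.rpow_mul hn0.le, div_mul_cancel₀ _ hk0, Real.rpow_neg_one,
    mul_inv_cancel₀ hn0.ne']

theorem tt_pos {k n : ℕ} (hn : 1 ≤ n) : 0 < tt k n := by
  have hn0 : (0:ℝ) < n := by exact_mod_cast hn
  exact Real.rpow_pos_of_pos hn0 _

theorem tt_le_one {k n : ℕ} (hn : 1 ≤ n) : tt k n ≤ 1 := by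
  apply Real.rpow_le_one_of_one_le_of_nonpos
  · exact_mod_cast hn
  · rw [neg_div]
    have : (0:ℝ) ≤ 1 / k := by positivity
    linarith

theorem tt_sq {k n : ℕ} (hn : 1 ≤ n) : tt k n ^ 2 = (n : ℝ) ^ (-(2:ℝ) / k) := by
  have hn0 : (0:ℝ) < n := by exact_mod_cast hn
  unfold tt
  rw [← Real.rpow_natCast, ← Real.rpow_mul hn0.le]
  congr 1
  push_cast
  ring

theorem ss_isBigO (k : ℕ) : (fun n : ℕ => (ss k n : ℝ)) =O[atTop] (fun n : ℕ => Real.log n) := by
  apply IsBigO.of_bound (20 * k)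
  filter_upwards [eventually_ge_atTop 3] with n hn
  have hn3 : (3:ℝ) ≤ n := by exact_mod_cast hn
  have hlog : 1 ≤ Real.log n := by
    rw [Real.le_log_iff_exp_le (by linarith)]
    have := Real.exp_one_lt_d9
    linarith
  have h1 : (mm n : ℝ) ≤ 8 * Real.log n + 1 := by
    unfold mm
    exact (Nat.ceil_lt_add_one (by positivity)).le
  have h2 : (0:ℝ) ≤ k := by positivity
  rw [Real.norm_of_nonneg (by positivity), Real.norm_of_nonneg (by linarith)]
  unfold ss
  push_cast
  nlinarith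

theorem ss_pow_mul_tt {k : ℕ} (hk : 1 ≤ k) (K : ℕ) :
    Tendsto (fun n : ℕ => (ss k n : ℝ) ^ K * tt k n) atTop (𝓝 0) := by
  have h1 : (fun n : ℕ => (ss k n : ℝ) ^ K) =O[atTop] (fun n : ℕ => Real.log n ^ K) :=
    (ss_isBigO k).pow K
  have hk0 : (0:ℝ) < 1 / k := by
    have : (0:ℝ) < k := by exact_mod_cast hk
    positivity
  have h2 : (fun n : ℕ => Real.log n ^ (K:ℝ)) =o[atTop] (fun n : ℕ => (n:ℝ) ^ ((1:ℝ) / k)) :=
    (isLittleO_log_rpow_rpow_atTop (K:ℝ) hk0).comp_tendsto tendsto_natCast_atTop_atTop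
  have h3 : (fun n : ℕ => (ss k n : ℝ) ^ K) =o[atTop] (fun n : ℕ => (n:ℝ) ^ ((1:ℝ) / k)) := by
    apply h1.trans_isLittleO
    refine h2.congr_left ?_
    intro n
    exact Real.rpow_natCast _ _
  have h4 := h3.tendsto_div_nhds_zero
  refine h4.congr' ?_
  filter_upwards [eventually_ge_atTop 1] with n hn
  have hn0 : (0:ℝ) < n := by exact_mod_cast hn
  unfold tt
  rw [neg_div, Real.rpow_neg hn0.le, div_eq_mul_inv]

theorem long_tendsto (C : ℝ) :
    Tendsto (fun n : ℕ => (n : ℝ) * (3 / 4) ^ mm n * C) atTop (𝓝 0) := by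
  have h1 : Tendsto (fun n : ℕ => (n : ℝ) * (3 / 4) ^ mm n) atTop (𝓝 0) := by
    have h2 : Tendsto (fun n : ℕ => ((n : ℝ))⁻¹) atTop (𝓝 0) :=
      tendsto_inv_atTop_zero.comp tendsto_natCast_atTop_atTop
    apply tendsto_of_tendsto_of_tendsto_of_le_of_le' tendsto_const_nhds h2
    · filter_upwards with n
      positivity
    · filter_upwards [eventually_ge_atTop 1] with n hn
      have hn0 : (0:ℝ) < n := by exact_mod_cast hn
      have hlog : 0 ≤ Real.log n := Real.log_nonneg (by exact_mod_cast hn)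
      have h3 : (3 / 4 : ℝ) ≤ Real.exp (-(1 / 4)) := by
        have := Real.add_one_le_exp (-(1 / 4 : ℝ))
        linarith
      have h4 : (3 / 4 : ℝ) ^ mm n ≤ Real.exp (-(2 * Real.log n)) := by
        calc (3 / 4 : ℝ) ^ mm n ≤ (Real.exp (-(1 / 4))) ^ mm n :=
              pow_le_pow_left₀ (by norm_num) h3 _
          _ = Real.exp (mm n * -(1 / 4)) := by rw [← Real.exp_nat_mul]
          _ ≤ Real.exp (-(2 * Real.log n)) := by
              apply Real.exp_le_exp.2
              have : 8 * Real.log n ≤ mm n := Nat.le_ceil _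
              linarith
      have h5 : Real.exp (-(2 * Real.log n)) = ((n:ℝ))⁻¹ * ((n:ℝ))⁻¹ := by
        have : -(2 * Real.log n) = -Real.log n + -Real.log n := by ring
        rw [this, Real.exp_add, Real.exp_neg, Real.exp_log hn0]
      calc (n : ℝ) * (3 / 4) ^ mm n ≤ n * (((n:ℝ))⁻¹ * ((n:ℝ))⁻¹) := by
            rw [← h5]; gcongr
        _ = ((n:ℝ))⁻¹ := by rw [← mul_assoc, mul_inv_cancel₀ hn0.ne', one_mul]
  simpa using h1.mul_const C

/-- Breaker wins with high probability -/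
theorem breaker_whp {k b : ℕ} (hk : 10 ≤ k) (hb : 1 ≤ b) {c : ℝ} (hc : 1 ≤ c)
    (hck : c ^ (k.choose 2) * 2 ^ (k - 1) / ((k - 1).factorial : ℝ) ≤ 1 / 8)
    (p : ℕ → I) (hp : ∀ᶠ n : ℕ in atTop, (p n : ℝ) ≤ c * (n : ℝ) ^ (-(2:ℝ) / k)) :
    Tendsto (fun n : ℕ => pr (Fin n) (p n) (fun G => ¬ BreakerWinsFrom G k b ∅ ∅)) atTop
      (𝓝 0) := by
  have hk1 : 1 ≤ k := by omega
  have hc0 : 0 < c := by linarith
  -- the quantity `y = t^2 (c s^2)^(6k+1)`
  set y : ℕ → ℝ := fun n => tt k n ^ 2 * (c * (ss k n : ℝ) ^ 2) ^ (6 * k + 1) with hy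
  have hA := fun K => ss_pow_mul_tt hk1 K
  have hst : Tendsto (fun n : ℕ => (k:ℝ) * ((ss k n : ℝ) ^ k * c ^ (k.choose 2) * 2 ^ k *
      tt k n)) atTop (𝓝 0) := by
    have := (hA k).const_mul ((k:ℝ) * (c ^ (k.choose 2) * 2 ^ k))
    rw [mul_zero] at this
    refine this.congr ?_
    intro n; ring
  have hsz : Tendsto (fun n : ℕ => (ss k n : ℝ) ^ 2 * (c * tt k n ^ 2)) atTop (𝓝 0) := by
    have := ((hA 1).mul (hA 1)).const_mul c
    rw [mul_zero, mul_zero] at this
    refine this.congr ?_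
    intro n; ring
  have hy0 : Tendsto y atTop (𝓝 0) := by
    have := ((hA (6 * k + 1)).mul (hA (6 * k + 1))).const_mul (c ^ (6 * k + 1))
    rw [mul_zero, mul_zero] at this
    refine this.congr ?_
    intro n
    simp only [hy]
    rw [mul_pow c, ← pow_mul]
    ring
  have hsy : Tendsto (fun n : ℕ => (ss k n : ℝ) * (y n) ^ ((1:ℝ) / 12)) atTop (𝓝 0) := by
    have h1 : Tendsto (fun n : ℕ => (ss k n : ℝ) ^ 12 * y n) atTop (𝓝 0) := by
      have := ((hA (6 * k + 1 + 12)).mul (hA (6 * k + 1))).const_mul (c ^ (6 * k + 1))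
      rw [mul_zero, mul_zero] at this
      refine this.congr ?_
      intro n
      simp only [hy]
      rw [mul_pow c, ← pow_mul]
      ring
    have h2 := h1.rpow_const (p := (1:ℝ) / 12) (Or.inr (by norm_num))
    rw [Real.zero_rpow (by norm_num)] at h2
    refine h2.congr ?_
    intro n
    have hyn : 0 ≤ y n := by
      simp only [hy]; positivity
    rw [Real.mul_rpow (by positivity) hyn]
    congr 1
    rw [← Real.rpow_natCast, ← Real.rpow_mul (by positivity)]
    norm_num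
  have hlim : Tendsto (fun n : ℕ => (n : ℝ) * (3 / 4) ^ mm n * (c ^ (k.choose 2) * 2 ^ k) +
      (ss k n : ℝ) * (y n) ^ ((1:ℝ) / 12)) atTop (𝓝 0) := by
    have := (long_tendsto (c ^ (k.choose 2) * 2 ^ k)).add hsy
    rwa [add_zero] at this
  apply tendsto_of_tendsto_of_tendsto_of_le_of_le' tendsto_const_nhds hlim
  · filter_upwards with n
    exact pr_nonneg _ _
  · have e1 := hst.eventually (gt_mem_nhds (show (0:ℝ) < 1 / 8 by norm_num))
    have e2 := hsz.eventually (gt_mem_nhds (show (0:ℝ) < 1 by norm_num))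
    have e3 := hy0.eventually (gt_mem_nhds (show (0:ℝ) < 1 by norm_num))
    filter_upwards [e1, e2, e3, hp, eventually_ge_atTop 1] with n h1 h2 h3 h4 hn
    have hcard : (Fintype.card (Fin n) : ℝ) = n := by rw [Fintype.card_fin]
    have hnt := tt_pow hk1 hn
    have htp := tt_pos (k := k) hn
    have ht1 := tt_le_one (k := k) hn
    have hpn : (p n : ℝ) ≤ c * tt k n ^ 2 := by rw [tt_sq hn]; exact h4
    have hyn : 0 ≤ y n := by
      simp only [hy]; positivity
    refine le_trans (maker_bound (p n) (m := mm n) hk hb) ?_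
    apply add_le_add
    · refine le_trans (long_bound' (p n) (by omega) (le_refl (k + mm n * k)) hc htp ht1
        (by rw [hcard]; exact hnt) hpn hck h1.le) ?_
      rw [hcard]
      apply le_of_eq
      ring
    · set q : ℝ := (ss k n : ℝ) ^ 2 * (c * tt k n ^ 2) with hq
      have hq0 : 0 ≤ q := by positivity
      have hz12 : (q ^ ((1:ℝ) / 12)) ^ 12 = q := by
        rw [← Real.rpow_natCast, ← Real.rpow_mul hq0]
        norm_num
      apply dense_bound' (p n) (z := q ^ ((1:ℝ) / 12)) (t := tt k n) (c := c)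
      · positivity
      · exact Real.rpow_le_one hq0 h2.le (by norm_num)
      · rw [hz12]
        exact le_refl _
      · positivity
      · rw [hcard]
        apply le_of_eq
        have h5 : (n:ℝ) * (q ^ ((1:ℝ) / 12)) ^ (6 * k + 1) = (y n) ^ ((1:ℝ) / 12) := by
          have h6 : ((n:ℝ) * (q ^ ((1:ℝ) / 12)) ^ (6 * k + 1)) ^ 12 = y n := by
            calc ((n:ℝ) * (q ^ ((1:ℝ) / 12)) ^ (6 * k + 1)) ^ 12
                = (n:ℝ) ^ 12 * ((q ^ ((1:ℝ) / 12)) ^ 12) ^ (6 * k + 1) := by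
                  rw [mul_pow, ← pow_mul, ← pow_mul]; ring
              _ = (n:ℝ) ^ 12 * q ^ (6 * k + 1) := by rw [hz12]
              _ = ((n:ℝ) * tt k n ^ k) ^ 12 * (tt k n ^ 2 * (c * (ss k n : ℝ) ^ 2) ^ (6 * k + 1))
                  := by
                  rw [hq]
                  have : (ss k n : ℝ) ^ 2 * (c * tt k n ^ 2) =
                    tt k n ^ 2 * (c * (ss k n : ℝ) ^ 2) := by ring
                  rw [this, mul_pow (tt k n ^ 2), mul_pow (n:ℝ)]
                  ring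
              _ = y n := by rw [hnt]; simp only [hy]; ring
          have h7 : (0:ℝ) ≤ (n:ℝ) * (q ^ ((1:ℝ) / 12)) ^ (6 * k + 1) := by positivity
          rw [← h6, ← Real.rpow_natCast (_ * _) 12, ← Real.rpow_mul h7]
          norm_num
        exact h5
      · exact Real.rpow_le_one hyn h3.le (by norm_num)
      · exact hpn

end Pool.Agent.Lib.MP_a33257_co
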